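import Pool.Agent.R217.NL.Defs

set_option autoImplicit false

open Filter Topology Set MeasureTheory
open scoped ENNReal InnerProductSpace

namespace Pool.Agent.R217.MT

open Pool.Agent.R217.NL (E BB IsTest W0 energy)

/-- `h(t) = g(t) + g'(t)/(2t)`. -/
noncomputable def hh (g : ℝ → ℝ) (t : ℝ) : ℝ := g t + deriv g t / (2 * t)

/-- The nonlinearity `(1 + h(t)) t e^{t²}`. -/
noncomputable def rhsG (g : ℝ → ℝ) (t : ℝ) : ℝ := (1 + hh g t) * t * Real.exp (t ^ 2)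

/-- Admissible perturbations. -/
structure Adm (g : ℝ → ℝ) : Prop where
  c1 : ContDiff ℝ 1 g
  inf : ∃ c : ℝ, -1 < c ∧ ∀ t, c ≤ g t
  even : ∀ t, g (-t) = g t
  lim : Tendsto g atTop (𝓝 0)

/-- Weak form of `-Δu = λ (1 + h(u)) u e^{u²}` in the unit disc. -/
def WeakG (g : ℝ → ℝ) (lam : ℝ) (u : E 0 → ℝ) (G : E 0 → E 0) : Prop :=
  ∀ φ, IsTest 0 φ → ∫ x in BB 0, ⟪G x, gradient φ x⟫_ℝ = lam * ∫ x in BB 0, rhsG g (u x) * φ x

/-- Positive radially symmetric solutions with maximum at the origin. -/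
structure SolE (g : ℝ → ℝ) (lam : ℝ) (u : E 0 → ℝ) (G : E 0 → E 0) : Prop where
  lam_pos : 0 < lam
  meas : AEStronglyMeasurable G (volume.restrict (BB 0))
  cont : ContinuousOn u (BB 0)
  mem : W0 0 u G
  pos : ∀ x ∈ BB 0, 0 < u x
  radial : ∀ x ∈ BB 0, ∀ y ∈ BB 0, ‖x‖ = ‖y‖ → u x = u y
  max : ∀ x ∈ BB 0, u x ≤ u 0
  weak : WeakG g lam u G

/-- Blow-up sequences. -/
structure Blow (g : ℝ → ℝ) (lam : ℕ → ℝ) (u : ℕ → E 0 → ℝ) (G : ℕ → E 0 → E 0) : Prop where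
  sol : ∀ k, SolE g (lam k) (u k) (G k)
  lim : Tendsto (fun k => u k 0) atTop atTop

/-- The expansion `‖∇u_k‖² = 4π + A μ_k^{-p} + o(μ_k^{-p})` for every blow-up sequence. -/
def Expansion (g : ℝ → ℝ) (A p : ℝ) : Prop :=
  ∀ lam u G, Blow g lam u G →
    Tendsto (fun k => (energy 0 (G k) - 4 * Real.pi) * (u k 0) ^ p) atTop (𝓝 A)

/-- The example `g(t) = exp((1+t²)^{-1/2}) - 1`. -/
noncomputable def gG (t : ℝ) : ℝ := Real.exp (√(1 + t ^ 2))⁻¹ - 1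

end Pool.Agent.R217.MT
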