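import Pool.Agent.R217.MT.Red1

set_option autoImplicit false

open Filter Topology Set MeasureTheory
open scoped ENNReal InnerProductSpace BoundedContinuousFunction

namespace Pool.Agent.R217.MT

/-- Clamping to `[0,μ]`. -/
noncomputable def cl (μ t : ℝ) : ℝ := max 0 (min t μ)

lemma cl_cont (μ : ℝ) : Continuous (cl μ) := by unfold cl; fun_prop

lemma cl_mem {μ : ℝ} (hμ : 0 ≤ μ) (t : ℝ) : cl μ t ∈ Icc 0 μ :=
  ⟨le_max_left _ _, max_le hμ (min_le_right _ _)⟩

lemma cl_eq {μ t : ℝ} (h0 : 0 ≤ t) (h1 : t ≤ μ) : cl μ t = t := by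
  unfold cl; rw [min_eq_left h1, max_eq_right h0]

lemma cl_lip (μ a b : ℝ) : |cl μ a - cl μ b| ≤ |a - b| := by
  have h : LipschitzWith 1 (cl μ) := (LipschitzWith.id.min_const μ).const_max 0
  have := h.dist_le_mul a b
  rw [Real.dist_eq, Real.dist_eq] at this
  simpa using this

/-- The derivative of the nonlinearity. -/
noncomputable def fG' (t : ℝ) : ℝ :=
  (1 - (1 / ww t ^ 3 - 3 * t ^ 2 / ww t ^ 5) / 2) * Real.exp (2 * Ph t) +
    DD t * (Real.exp (2 * Ph t) * (2 * DD t))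

lemma fG_deriv (t : ℝ) : HasDerivAt fG (fG' t) t :=
  (DD_deriv t).mul (((Ph_deriv t).const_mul 2).exp)

lemma fG'_cont : Continuous fG' := by
  have hw : Continuous ww := continuous_iff_continuousAt.2 fun t => (ww_deriv t).continuousAt
  have hw0 : ∀ t, ww t ≠ 0 := fun t => (ww_pos t).ne'
  have h1 := DD_cont
  have h2 := Ph_cont
  unfold fG'
  have h3 : Continuous fun t : ℝ => 1 / ww t ^ 3 := continuous_const.div (hw.pow 3)
    (fun t => pow_ne_zero 3 (hw0 t))
  have h4 : Continuous fun t : ℝ => 3 * t ^ 2 / ww t ^ 5 := by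
    apply Continuous.div (by fun_prop) (hw.pow 5) (fun t => pow_ne_zero 5 (hw0 t))
  fun_prop

lemma fG_lip (μ : ℝ) (hμ : 0 ≤ μ) : ∃ L : ℝ, 0 < L ∧ ∀ a b,
    |fG (cl μ a) - fG (cl μ b)| ≤ L * |a - b| := by
  obtain ⟨C, hC⟩ := (isCompact_Icc (a := (0:ℝ)) (b := μ)).exists_bound_of_continuousOn
    fG'_cont.continuousOn
  have hC0 : 0 ≤ C := (norm_nonneg _).trans (hC 0 ⟨le_rfl, hμ⟩)
  refine ⟨C + 1, by linarith, fun a b => ?_⟩
  have h := Convex.norm_image_sub_le_of_norm_hasDerivWithin_le (f := fG) (f' := fG') (C := C)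
    (s := Icc 0 μ) (x := cl μ b) (y := cl μ a) (fun t _ => (fG_deriv t).hasDerivWithinAt) hC
    (convex_Icc 0 μ) (cl_mem hμ b) (cl_mem hμ a)
  rw [Real.norm_eq_abs, Real.norm_eq_abs] at h
  have h2 := cl_lip μ a b
  have h3 := abs_nonneg (a - b)
  calc |fG (cl μ a) - fG (cl μ b)| ≤ C * |cl μ a - cl μ b| := h
    _ ≤ C * |a - b| := by gcongr
    _ ≤ (C + 1) * |a - b| := by nlinarith

lemma fG_bd (μ : ℝ) (hμ : 0 ≤ μ) : ∃ C : ℝ, 0 ≤ C ∧ ∀ a, |fG (cl μ a)| ≤ C := by
  obtain ⟨C, hC⟩ := (isCompact_Icc (a := (0:ℝ)) (b := μ)).exists_bound_of_continuousOn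
    fG_cont.continuousOn
  have hC0 : 0 ≤ C := (norm_nonneg _).trans (hC 0 ⟨le_rfl, hμ⟩)
  exact ⟨C, hC0, fun a => hC _ (cl_mem hμ a)⟩

lemma fG_nonneg {t : ℝ} (ht : 0 ≤ t) : 0 ≤ fG t := by
  rcases ht.eq_or_lt with h | h
  · rw [← h]; unfold fG DD; simp
  · exact (fG_pos h).le

/-- The averaged nonlinearity. -/
noncomputable def GG (μ : ℝ) (v : ℝ → ℝ) (t : ℝ) : ℝ := ∫ σ in (0:ℝ)..1, fG (cl μ (v (t * σ)))

lemma fc_cont (μ : ℝ) {v : ℝ → ℝ} (hv : Continuous v) : Continuous fun t => fG (cl μ (v t)) :=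
  fG_cont.comp ((cl_cont μ).comp hv)

lemma GG_cont (μ : ℝ) {v : ℝ → ℝ} (hv : Continuous v) : Continuous (GG μ v) := by
  unfold GG
  apply intervalIntegral.continuous_parametric_intervalIntegral_of_continuous'
  have h := fc_cont μ hv
  have h2 : Continuous fun p : ℝ × ℝ => p.1 * p.2 := by fun_prop
  exact h.comp h2

lemma GG_bd {μ C : ℝ} (hC : ∀ a, |fG (cl μ a)| ≤ C) (v : ℝ → ℝ) (t : ℝ) : |GG μ v t| ≤ C := by
  have := intervalIntegral.norm_integral_le_of_norm_le_const (a := (0:ℝ)) (b := 1)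
    (f := fun σ => fG (cl μ (v (t * σ)))) (C := C) (fun x _ => hC _)
  unfold GG
  simpa using this

lemma GG_mul (μ : ℝ) (v : ℝ → ℝ) (x : ℝ) : x * GG μ v x = ∫ t in (0:ℝ)..x, fG (cl μ (v t)) := by
  unfold GG
  have := intervalIntegral.mul_integral_comp_mul_left (a := (0:ℝ)) (b := 1)
    (f := fun t => fG (cl μ (v t))) x
  simpa using this

/-- The weighted function. -/
noncomputable def Vk (κ : ℝ) (z : ℝ →ᵇ ℝ) (x : ℝ) : ℝ := Real.exp (κ * |x|) * z x

lemma Vk_cont (κ : ℝ) (z : ℝ →ᵇ ℝ) : Continuous (Vk κ z) := by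
  unfold Vk
  have := z.continuous
  fun_prop

/-- The integral operator. -/
noncomputable def TTf (μ κ : ℝ) (z : ℝ →ᵇ ℝ) (x : ℝ) : ℝ :=
  Real.exp (-(κ * |x|)) * (μ - ∫ t in (0:ℝ)..|x|, GG μ (Vk κ z) t)

lemma TTf_cont (μ κ : ℝ) (z : ℝ →ᵇ ℝ) : Continuous (TTf μ κ z) := by
  unfold TTf
  have h1 : Continuous fun y : ℝ => ∫ t in (0:ℝ)..y, GG μ (Vk κ z) t :=
    intervalIntegral.continuous_primitive
      (fun a b => (GG_cont μ (Vk_cont κ z)).intervalIntegrable a b) 0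
  have h2 : Continuous fun x : ℝ => ∫ t in (0:ℝ)..|x|, GG μ (Vk κ z) t := h1.comp continuous_abs
  fun_prop

lemma TTf_bd {μ κ C : ℝ} (hκ : 0 < κ) (hC0 : 0 ≤ C) (hC : ∀ a, |fG (cl μ a)| ≤ C)
    (z : ℝ →ᵇ ℝ) (x : ℝ) : ‖TTf μ κ z x‖ ≤ |μ| + C / κ := by
  unfold TTf
  have h1 : |∫ t in (0:ℝ)..|x|, GG μ (Vk κ z) t| ≤ C * |x| := by
    have := intervalIntegral.norm_integral_le_of_norm_le_const (a := (0:ℝ)) (b := |x|)
      (f := fun t => GG μ (Vk κ z) t) (C := C) (fun t _ => GG_bd hC _ t)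
    simpa using this
  have h2 : Real.exp (-(κ * |x|)) ≤ 1 := by
    rw [Real.exp_le_one_iff]
    have : 0 ≤ κ * |x| := by positivity
    linarith
  have h3 : Real.exp (-(κ * |x|)) * |x| ≤ 1 / κ := by
    have h4 : κ * |x| ≤ Real.exp (κ * |x|) := by
      have := Real.add_one_le_exp (κ * |x|)
      linarith
    have h5 : Real.exp (-(κ * |x|)) * Real.exp (κ * |x|) = 1 := by rw [← Real.exp_add]; simp
    rw [le_div_iff₀ hκ]
    calc Real.exp (-(κ * |x|)) * |x| * κ = Real.exp (-(κ * |x|)) * (κ * |x|) := by ring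
      _ ≤ Real.exp (-(κ * |x|)) * Real.exp (κ * |x|) := by gcongr
      _ = 1 := h5
  have hE := Real.exp_pos (-(κ * |x|))
  rw [Real.norm_eq_abs, abs_mul, abs_of_pos hE]
  calc Real.exp (-(κ * |x|)) * |μ - ∫ t in (0:ℝ)..|x|, GG μ (Vk κ z) t| ≤
        Real.exp (-(κ * |x|)) * (|μ| + C * |x|) := by
        gcongr
        refine (abs_sub _ _).trans ?_
        linarith
    _ = Real.exp (-(κ * |x|)) * |μ| + C * (Real.exp (-(κ * |x|)) * |x|) := by ring
    _ ≤ 1 * |μ| + C * (1 / κ) := by gcongr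
    _ = _ := by ring

lemma TTf_lip {μ κ L : ℝ} (hL : 0 < L) (hκ : κ = 2 * L)
    (hlip : ∀ a b, |fG (cl μ a) - fG (cl μ b)| ≤ L * |a - b|) (z z' : ℝ →ᵇ ℝ) (x : ℝ) :
    |TTf μ κ z x - TTf μ κ z' x| ≤ 1 / 2 * dist z z' := by
  have hκ0 : 0 < κ := by rw [hκ]; positivity
  obtain ⟨D, hD⟩ : ∃ D, D = dist z z' := ⟨_, rfl⟩
  have hD0 : 0 ≤ D := by rw [hD]; exact dist_nonneg
  have c1 := GG_cont μ (Vk_cont κ z)
  have c2 := GG_cont μ (Vk_cont κ z')
  have hb : ∀ t, 0 ≤ t → |GG μ (Vk κ z) t - GG μ (Vk κ z') t| ≤ L * D * Real.exp (κ * t) := by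
    intro t ht
    unfold GG
    have i1 : Continuous fun σ => fG (cl μ (Vk κ z (t * σ))) :=
      (fc_cont μ (Vk_cont κ z)).comp (continuous_const_mul t)
    have i2 : Continuous fun σ => fG (cl μ (Vk κ z' (t * σ))) :=
      (fc_cont μ (Vk_cont κ z')).comp (continuous_const_mul t)
    rw [← intervalIntegral.integral_sub (i1.intervalIntegrable _ _) (i2.intervalIntegrable _ _)]
    have := intervalIntegral.norm_integral_le_of_norm_le_const (a := (0:ℝ)) (b := 1)
      (f := fun σ => fG (cl μ (Vk κ z (t * σ))) - fG (cl μ (Vk κ z' (t * σ))))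
      (C := L * D * Real.exp (κ * t)) (fun σ hσ => by
        rw [uIoc_of_le zero_le_one] at hσ
        have hσ0 := hσ.1
        refine (hlip _ _).trans ?_
        unfold Vk
        rw [← mul_sub, abs_mul, abs_of_pos (Real.exp_pos _)]
        have e1 : |z (t * σ) - z' (t * σ)| ≤ D := by
          rw [← Real.dist_eq, hD]; exact BoundedContinuousFunction.dist_coe_le_dist _
        have e2 : Real.exp (κ * |t * σ|) ≤ Real.exp (κ * t) := by
          apply Real.exp_le_exp.2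
          have : |t * σ| ≤ t := by
            rw [abs_of_nonneg (by positivity)]
            exact mul_le_of_le_one_right ht hσ.2
          gcongr
        calc L * (Real.exp (κ * |t * σ|) * |z (t * σ) - z' (t * σ)|) ≤
              L * (Real.exp (κ * t) * D) := by gcongr
          _ = _ := by ring)
    simpa using this
  have hint : |∫ t in (0:ℝ)..|x|, (GG μ (Vk κ z) t - GG μ (Vk κ z') t)| ≤
      L * D / κ * Real.exp (κ * |x|) := by
    have hg : Continuous fun t : ℝ => L * D * Real.exp (κ * t) := by fun_prop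
    have hgi : IntervalIntegrable (fun t : ℝ => L * D * Real.exp (κ * t)) volume 0 |x| :=
      hg.intervalIntegrable _ _
    have h1 := intervalIntegral.norm_integral_le_of_norm_le (a := (0:ℝ)) (b := |x|)
      (f := fun t => GG μ (Vk κ z) t - GG μ (Vk κ z') t) (g := fun t => L * D * Real.exp (κ * t))
      (abs_nonneg x) (ae_of_all _ fun t ht => hb t ht.1.le) hgi
    have h2 : ∫ t in (0:ℝ)..|x|, L * D * Real.exp (κ * t) =
        L * D / κ * Real.exp (κ * |x|) - L * D / κ * Real.exp (κ * 0) := by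
      refine intervalIntegral.integral_eq_sub_of_hasDerivAt (f := fun t =>
        L * D / κ * Real.exp (κ * t)) ?_ hgi
      intro t _
      have := (((hasDerivAt_id t).const_mul κ).exp).const_mul (L * D / κ)
      refine this.congr_deriv ?_
      simp
      field_simp
    rw [h2] at h1
    refine h1.trans ?_
    have : 0 ≤ L * D / κ * Real.exp (κ * 0) := by positivity
    linarith
  have e : TTf μ κ z x - TTf μ κ z' x = Real.exp (-(κ * |x|)) *
      -(∫ t in (0:ℝ)..|x|, (GG μ (Vk κ z) t - GG μ (Vk κ z') t)) := by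
    rw [intervalIntegral.integral_sub (c1.intervalIntegrable _ _) (c2.intervalIntegrable _ _)]
    unfold TTf
    ring
  rw [e, abs_mul, abs_neg, abs_of_pos (Real.exp_pos _), ← hD]
  have h5 : Real.exp (-(κ * |x|)) * Real.exp (κ * |x|) = 1 := by rw [← Real.exp_add]; simp
  calc Real.exp (-(κ * |x|)) * |∫ t in (0:ℝ)..|x|, (GG μ (Vk κ z) t - GG μ (Vk κ z') t)| ≤
        Real.exp (-(κ * |x|)) * (L * D / κ * Real.exp (κ * |x|)) := by
        have := Real.exp_pos (-(κ * |x|)); gcongr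
    _ = L * D / κ * (Real.exp (-(κ * |x|)) * Real.exp (κ * |x|)) := by ring
    _ = 1 / 2 * D := by rw [h5, hκ]; field_simp

/-- Global solution of the truncated integral equation. -/
theorem exists_v {μ : ℝ} (hμ : 0 ≤ μ) : ∃ v : ℝ → ℝ, Continuous v ∧
    ∀ x, 0 ≤ x → v x = μ - ∫ t in (0:ℝ)..x, GG μ v t := by
  obtain ⟨L, hL, hlip⟩ := fG_lip μ hμ
  obtain ⟨C, hC0, hC⟩ := fG_bd μ hμ
  obtain ⟨κ, hκ⟩ : ∃ κ, κ = 2 * L := ⟨_, rfl⟩
  have hκ0 : 0 < κ := by rw [hκ]; positivity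
  obtain ⟨T, hT⟩ : ∃ T : (ℝ →ᵇ ℝ) → (ℝ →ᵇ ℝ), ∀ z x, T z x = TTf μ κ z x :=
    ⟨fun z => BoundedContinuousFunction.ofNormedAddCommGroup (TTf μ κ z) (TTf_cont μ κ z)
      (|μ| + C / κ) (TTf_bd hκ0 hC0 hC z), fun z x => rfl⟩
  have hcon : ContractingWith (1 / 2) T := by
    refine ⟨by
      rw [← NNReal.coe_lt_coe]; norm_num, ?_⟩
    apply LipschitzWith.of_dist_le_mul
    intro z z'
    rw [BoundedContinuousFunction.dist_le (by positivity)]
    intro x
    rw [hT, hT, Real.dist_eq]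
    have := TTf_lip hL hκ hlip z z' x
    simpa using this
  obtain ⟨z, hz⟩ : ∃ z, T z = z := ⟨_, hcon.fixedPoint_isFixedPt⟩
  refine ⟨Vk κ z, Vk_cont κ z, fun x hx => ?_⟩
  have h1 : z x = TTf μ κ z x := by rw [← hT, hz]
  have h5 : Real.exp (κ * |x|) * Real.exp (-(κ * |x|)) = 1 := by rw [← Real.exp_add]; simp
  have h6 : Vk κ z x = Real.exp (κ * |x|) * z x := rfl
  rw [h6, h1]
  unfold TTf
  rw [← mul_assoc, h5, one_mul, abs_of_nonneg hx]

/-- The radial profile on its interval of positivity. -/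
theorem exists_profile {μ : ℝ} (hμ : 0 < μ) : ∃ (R : ℝ) (v : ℝ → ℝ), 0 < R ∧ Continuous v ∧
    v 0 = μ ∧ v R = 0 ∧ (∀ x, 0 ≤ x → x < R → 0 < v x) ∧ (∀ x, 0 ≤ x → v x ≤ μ) ∧
    (∀ x, 0 < x → HasDerivAt v (-(GG μ v x)) x) := by
  obtain ⟨v, hv, hve⟩ := exists_v hμ.le
  have hG := GG_cont μ hv
  have hfc := fc_cont μ hv
  have hv0 : v 0 = μ := by rw [hve 0 le_rfl]; simp
  have hd : ∀ x, 0 < x → HasDerivAt v (-(GG μ v x)) x := by
    intro x hx
    have h1 : HasDerivAt (fun x => μ - ∫ t in (0:ℝ)..x, GG μ v t) (-(GG μ v x)) x :=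
      ((hG.integral_hasStrictDerivAt 0 x).hasDerivAt).const_sub μ
    refine h1.congr_of_eventuallyEq ?_
    filter_upwards [lt_mem_nhds hx] with y hy
    exact hve y hy.le
  have hfn : ∀ t, 0 ≤ fG (cl μ (v t)) := fun t => fG_nonneg (cl_mem hμ.le _).1
  have hGn : ∀ x, 0 ≤ GG μ v x := by
    intro x
    apply intervalIntegral.integral_nonneg zero_le_one
    intro t _
    exact fG_nonneg (cl_mem hμ.le _).1
  have hle : ∀ x, 0 ≤ x → v x ≤ μ := by
    intro x hx
    rw [hve x hx]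
    have : 0 ≤ ∫ t in (0:ℝ)..x, GG μ v t :=
      intervalIntegral.integral_nonneg hx (fun t _ => hGn t)
    linarith
  -- a point where v ≤ 0
  have hex : ∃ x, 0 ≤ x ∧ v x ≤ 0 := by
    by_contra hc
    push Not at hc
    obtain ⟨a, ha⟩ : ∃ a, a = ∫ t in (0:ℝ)..1, fG (cl μ (v t)) := ⟨_, rfl⟩
    have ha0 : 0 < a := by
      rw [ha]
      apply intervalIntegral.intervalIntegral_pos_of_pos_on (hfc.intervalIntegrable _ _) _ one_pos
      intro t ht
      rw [cl_eq (hc t ht.1.le).le (hle t ht.1.le)]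
      exact fG_pos (hc t ht.1.le)
    have hbig : ∀ x, 1 ≤ x → a ≤ x * GG μ v x := by
      intro x hx
      rw [GG_mul, ha, ← intervalIntegral.integral_add_adjacent_intervals
        (hfc.intervalIntegrable 0 1) (hfc.intervalIntegrable 1 x)]
      have : 0 ≤ ∫ t in (1:ℝ)..x, fG (cl μ (v t)) :=
        intervalIntegral.integral_nonneg hx (fun t _ => hfn t)
      linarith
    have hmono : ∀ y, 1 ≤ y → -(v 1) - a * Real.log 1 ≤ -(v y) - a * Real.log y := by
      intro y hy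
      apply mono_icc (F := fun x => -(v x) - a * Real.log x)
        (F' := fun x => -(-(GG μ v x)) - a * x⁻¹) hy
      · intro x hx _
        have hx0 : 0 < x := by linarith
        exact ((hd x hx0).neg).sub ((Real.hasDerivAt_log hx0.ne').const_mul a)
      · intro x hx _
        have hx0 : 0 < x := by linarith
        have := hbig x hx
        have : a * x⁻¹ ≤ GG μ v x := by
          rw [← div_eq_mul_inv, div_le_iff₀ hx0]; linarith
        linarith
    obtain ⟨y, hy⟩ : ∃ y, y = Real.exp ((v 1 + 1) / a) := ⟨_, rfl⟩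
    have hv1 := hc 1 (by norm_num)
    have hy1 : 1 ≤ y := by
      rw [hy]; apply Real.one_le_exp; positivity
    have h1 := hmono y hy1
    have h2 : a * Real.log y = v 1 + 1 := by rw [hy, Real.log_exp]; field_simp
    have h3 := hc y (by linarith)
    simp at h1
    linarith
  -- the first zero
  obtain ⟨S, hS⟩ : ∃ S : Set ℝ, S = {x | 0 ≤ x ∧ v x ≤ 0} := ⟨_, rfl⟩
  have hSc : IsClosed S := by
    rw [hS]
    exact (isClosed_le continuous_const continuous_id).inter (isClosed_le hv continuous_const)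
  have hSne : S.Nonempty := by rw [hS]; exact hex
  have hSb : BddBelow S := ⟨0, fun x hx => by rw [hS] at hx; exact hx.1⟩
  have hR := hSc.csInf_mem hSne hSb
  obtain ⟨R, hRd⟩ : ∃ R, R = sInf S := ⟨_, rfl⟩
  rw [← hRd] at hR
  have hR' : 0 ≤ R ∧ v R ≤ 0 := by rw [hS] at hR; exact hR
  have hpos : ∀ x, 0 ≤ x → x < R → 0 < v x := by
    intro x hx hxR
    by_contra hc
    push Not at hc
    have hmem : x ∈ S := by rw [hS]; exact ⟨hx, hc⟩
    have := csInf_le hSb hmem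
    rw [← hRd] at this
    linarith
  have hR0 : 0 < R := by
    rcases hR'.1.eq_or_lt with h | h
    · exfalso
      have := hR'.2
      rw [← h, hv0] at this
      linarith
    · exact h
  refine ⟨R, v, hR0, hv, hv0, le_antisymm hR'.2 ?_, hpos, hle, hd⟩
  have ht : Tendsto v (𝓝[<] R) (𝓝 (v R)) := (hv.tendsto R).mono_left nhdsWithin_le_nhds
  refine ge_of_tendsto ht ?_
  filter_upwards [Ico_mem_nhdsLT hR0] with x hx
  exact (hpos x hx.1 hx.2).le

end Pool.Agent.R217.MT
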