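import Pool.Agent.R217.MT.Ex1

set_option autoImplicit false

open Filter Topology Set MeasureTheory
open scoped ENNReal InnerProductSpace BoundedContinuousFunction

namespace Pool.Agent.R217.MT

open Pool.Agent.R217.NL (E BB IsTest W0 energy UU UU_cont norm_e0 norm_smul_e0 mem_e0 e0 sph
  sph_pos polar exists_test Prof Dat mB LnB L1_of_Ln Ut grad_cont grad_bound qm qm_meas exp_mem
  exp_tend)

/-- Approximation of a continuous function on `(0,1)` by test functions. -/
lemma approx {w : ℝ → ℝ} (hw : Continuous w) : ∃ ψ : ℕ → ℝ → ℝ,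
    (∀ j, ContDiff ℝ (⊤ : ℕ∞) (ψ j) ∧ HasCompactSupport (ψ j) ∧ tsupport (ψ j) ⊆ Ioo 0 1) ∧
    (∃ C, ∀ j, ∀ r ∈ Ioo (0:ℝ) 1, |ψ j r| ≤ C) ∧
    ∀ r ∈ Ioo (0:ℝ) 1, Tendsto (fun j => ψ j r) atTop (𝓝 (w r)) := by
  have hp : ∀ j : ℕ, ∃ p : Polynomial ℝ, ∀ x ∈ Icc (0:ℝ) 1, |p.eval x - w x| < 1 / ((j:ℝ) + 1) :=
    fun j => exists_polynomial_near_of_continuousOn 0 1 w hw.continuousOn _ (by positivity)
  choose p hp using hp
  have hb : ∀ j : ℕ, ∃ b : ContDiffBump (1 / 2 : ℝ), b.rIn = 1 / 2 - 2 / ((j:ℝ) + 5) ∧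
      b.rOut = 1 / 2 - 1 / ((j:ℝ) + 5) := by
    intro j
    have h1 : 2 / ((j:ℝ) + 5) ≤ 2 / 5 := by gcongr; linarith [(Nat.cast_nonneg j : (0:ℝ) ≤ j)]
    have h2 : 0 < 1 / ((j:ℝ) + 5) := by positivity
    have h3 : 2 / ((j:ℝ) + 5) = 2 * (1 / ((j:ℝ) + 5)) := by ring
    exact ⟨⟨1 / 2 - 2 / ((j:ℝ) + 5), 1 / 2 - 1 / ((j:ℝ) + 5), by linarith, by linarith⟩, rfl, rfl⟩
  choose b hb1 hb2 using hb
  obtain ⟨C, hC⟩ := (isCompact_Icc (a := (0:ℝ)) (b := 1)).exists_bound_of_continuousOn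
    hw.continuousOn
  refine ⟨fun j x => b j x * (p j).eval x, ?_, ⟨C + 1, ?_⟩, ?_⟩
  · intro j
    have hpc : ContDiff ℝ (⊤ : ℕ∞) fun x => (p j).eval x := by
      simpa using (p j).contDiff_aeval (𝕜 := ℝ) (⊤ : ℕ∞)
    refine ⟨(b j).contDiff.mul hpc, ?_, ?_⟩
    · exact (b j).hasCompactSupport.mul_right
    · refine (tsupport_mul_subset_left).trans ?_
      rw [(b j).tsupport_eq, hb2, Real.closedBall_eq_Icc]
      intro x hx
      have h2 : 0 < 1 / ((j:ℝ) + 5) := by positivity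
      exact ⟨by linarith [hx.1], by linarith [hx.2]⟩
  · intro j r hr
    have h1 := hp j r ⟨hr.1.le, hr.2.le⟩
    have h2 := hC r ⟨hr.1.le, hr.2.le⟩
    rw [Real.norm_eq_abs] at h2
    have h3 : 1 / ((j:ℝ) + 1) ≤ 1 := by
      rw [div_le_one (by positivity)]; linarith [(Nat.cast_nonneg j : (0:ℝ) ≤ j)]
    have h4 : |(p j).eval r| ≤ C + 1 := by
      have := abs_add_le ((p j).eval r - w r) (w r)
      rw [sub_add_cancel] at this
      linarith
    simp only []
    rw [abs_mul, abs_of_nonneg (b j).nonneg]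
    calc b j r * |(p j).eval r| ≤ 1 * |(p j).eval r| := by
          have := (b j).le_one (x := r)
          gcongr
      _ ≤ C + 1 := by linarith
  · intro r hr
    have h1 : Tendsto (fun j : ℕ => (p j).eval r) atTop (𝓝 (w r)) := by
      rw [tendsto_iff_dist_tendsto_zero]
      refine squeeze_zero (fun _ => dist_nonneg) (fun j => ?_) tendsto_one_div_add_atTop_nhds_zero_nat
      rw [Real.dist_eq]
      exact (hp j r ⟨hr.1.le, hr.2.le⟩).le
    refine h1.congr' ?_
    have h2 : Tendsto (fun j : ℕ => 2 / ((j:ℝ) + 5)) atTop (𝓝 0) := by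
      apply Tendsto.const_div_atTop
      exact tendsto_atTop_add_const_right _ _ tendsto_natCast_atTop_atTop
    filter_upwards [h2.eventually (gt_mem_nhds (lt_min hr.1 (sub_pos.2 hr.2)))] with j hj
    have hj1 := lt_of_lt_of_le hj (min_le_left _ _)
    have hj2 := lt_of_lt_of_le hj (min_le_right _ _)
    have : b j r = 1 := by
      apply (b j).one_of_mem_closedBall
      rw [hb1, Real.closedBall_eq_Icc]
      constructor <;> linarith
    rw [this, one_mul]

/-- Bounded pointwise convergence implies `L²` convergence on the disc. -/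
lemma Ln_of_ptwise {F : Type*} [NormedAddCommGroup F] {f : ℕ → E 0 → F} {C : ℝ}
    (hf : ∀ j, AEStronglyMeasurable (f j) (mB 0)) (hb : ∀ j, ∀ᵐ x ∂(mB 0), ‖f j x‖ ≤ C)
    (hl : ∀ᵐ x ∂(mB 0), Tendsto (fun j => f j x) atTop (𝓝 0)) :
    Tendsto (fun j => LnB 0 (f j)) atTop (𝓝 0) := by
  have e : ∀ j, LnB 0 (f j) = (∫⁻ x, ‖f j x‖ₑ ^ (2:ℝ) ∂(mB 0)) ^ (1 / (2:ℝ)) := by
    intro j
    unfold LnB
    rw [eLpNorm_eq_lintegral_rpow_enorm_toReal (by simp) (by simp)]
    norm_num
  simp_rw [e]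
  have h1 : Tendsto (fun j => ∫⁻ x, ‖f j x‖ₑ ^ (2:ℝ) ∂(mB 0)) atTop
      (𝓝 (∫⁻ _x, 0 ∂(mB 0))) := by
    apply tendsto_lintegral_of_dominated_convergence' (fun _ => ENNReal.ofReal C ^ (2:ℝ))
    · intro j
      exact (hf j).enorm.pow_const _
    · intro j
      filter_upwards [hb j] with x hx
      gcongr
      rw [← ofReal_norm]
      exact ENNReal.ofReal_le_ofReal hx
    · rw [lintegral_const]
      exact ENNReal.mul_ne_top (ENNReal.rpow_ne_top_of_nonneg (by norm_num) ENNReal.ofReal_ne_top)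
        (measure_ne_top _ _)
    · filter_upwards [hl] with x hx
      have h2 : Tendsto (fun j => ‖f j x‖ₑ) atTop (𝓝 0) := by
        have := hx.enorm
        simpa using this
      have h3 := h2.ennrpow_const (2:ℝ)
      simpa using h3
  rw [lintegral_zero] at h1
  have h2 := h1.ennrpow_const (1 / (2:ℝ))
  have h3 : (0:ℝ≥0∞) ^ (1 / (2:ℝ)) = 0 := ENNReal.zero_rpow_of_pos (by norm_num)
  rw [h3] at h2
  exact h2

/-- Membership of a radial function in `W₀^{1,2}`. -/
lemma W0_radial {p w : ℝ → ℝ} (hp : Continuous p) (hw : Continuous w)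
    (hd : ∀ r ∈ Ioo (0:ℝ) 1, HasDerivAt p (w r) r) (hp1 : p 1 = 0) {u : E 0 → ℝ} {G : E 0 → E 0}
    (hu : ∀ x, u x = p ‖x‖) (hG : ∀ x, x ≠ 0 → G x = (w ‖x‖ / ‖x‖) • x)
    (hGm : AEStronglyMeasurable G (mB 0)) : W0 0 u G := by
  obtain ⟨ψ, hψ, ⟨C, hC⟩, hlim⟩ := approx hw
  have hT := fun j => exists_test (d := 0) (hψ j).1 (hψ j).2.1 (hψ j).2.2
  choose Θ hΘ hTest hgr hb using hT
  have hΘc : ∀ j, Continuous (Θ j) := fun j =>
    continuous_iff_continuousAt.2 fun r => (hΘ j r).continuousAt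
  have hΘ1 : ∀ j, Θ j 1 = 0 := by
    intro j
    obtain ⟨b, hb1, hb2⟩ := hb j
    exact (hb2 1 hb1.2.le).1
  obtain ⟨Cw, hCw⟩ := (isCompact_Icc (a := (0:ℝ)) (b := 1)).exists_bound_of_continuousOn
    hw.continuousOn
  have hψc : ∀ j, Continuous (ψ j) := fun j => (hψ j).1.continuous
  have hdiffb : ∀ j, ∀ r ∈ Ioo (0:ℝ) 1, ‖ψ j r - w r‖ ≤ C + Cw := by
    intro j r hr
    refine (norm_sub_le _ _).trans ?_
    exact add_le_add (hC j r hr) (hCw r ⟨hr.1.le, hr.2.le⟩)
  have hCC : 0 ≤ C + Cw := (norm_nonneg _).trans (hdiffb 0 (1/2) ⟨by norm_num, by norm_num⟩)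
  -- L¹ convergence of ψ
  have hL1 : Tendsto (fun j => ∫ r in Ioo (0:ℝ) 1, ‖ψ j r - w r‖) atTop (𝓝 0) := by
    have h1 : Tendsto (fun j => ∫ r in Ioo (0:ℝ) 1, ‖ψ j r - w r‖) atTop
        (𝓝 (∫ r in Ioo (0:ℝ) 1, (0:ℝ))) := by
      apply tendsto_integral_of_dominated_convergence (fun _ => C + Cw)
      · intro j
        exact ((hψc j).sub hw).norm.aestronglyMeasurable
      · exact integrableOn_const (by simp)
      · intro j
        filter_upwards [ae_restrict_mem measurableSet_Ioo] with r hr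
        rw [norm_norm]
        exact hdiffb j r hr
      · filter_upwards [ae_restrict_mem measurableSet_Ioo] with r hr
        have := ((hlim r hr).sub_const (w r)).norm
        simpa using this
    simpa using h1
  have hval : ∀ j, ∀ r ∈ Ioo (0:ℝ) 1, |Θ j r - p r| ≤ ∫ r in Ioo (0:ℝ) 1, ‖ψ j r - w r‖ := by
    intro j r hr
    have e1 : ∫ t in r..1, (ψ j t - w t) = (Θ j 1 - p 1) - (Θ j r - p r) := by
      apply intervalIntegral.integral_eq_sub_of_hasDerivAt_of_le (f := fun t => Θ j t - p t) hr.2.le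
      · exact ((hΘc j).sub hp).continuousOn
      · intro t ht
        exact (hΘ j t).sub (hd t ⟨lt_trans hr.1 ht.1, ht.2⟩)
      · exact ((hψc j).sub hw).intervalIntegrable _ _
    rw [hΘ1, hp1] at e1
    have e2 : Θ j r - p r = -∫ t in r..1, (ψ j t - w t) := by rw [e1]; ring
    rw [e2, abs_neg, ← Real.norm_eq_abs]
    refine (intervalIntegral.norm_integral_le_integral_norm (μ := volume)
      (f := fun t => ψ j t - w t) hr.2.le).trans ?_
    rw [intervalIntegral.integral_of_le hr.2.le, integral_Ioc_eq_integral_Ioo]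
    apply setIntegral_mono_set
    · have : IntegrableOn (fun r => ‖ψ j r - w r‖) (Icc 0 1) :=
        (((hψc j).sub hw).norm).continuousOn.integrableOn_compact isCompact_Icc
      exact this.mono_set Ioo_subset_Icc_self
    · exact ae_of_all _ fun _ => norm_nonneg _
    · exact (Ioo_subset_Ioo_left hr.1.le).eventuallyLE
  have h0 : ∀ᵐ x : E 0 ∂(mB 0), x ≠ 0 ∧ ‖x‖ ∈ Ioo (0:ℝ) 1 := by
    have h1 : ∀ᵐ x : E 0 ∂(mB 0), x ≠ 0 := by
      apply ae_restrict_of_ae
      exact compl_mem_ae_iff.2 (measure_singleton 0)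
    filter_upwards [h1, ae_restrict_mem (show MeasurableSet (BB 0) from measurableSet_ball)]
      with x hx hx2
    rw [BB, mem_ball_zero_iff] at hx2
    exact ⟨hx, norm_pos_iff.2 hx, hx2⟩
  refine ⟨fun j x => Θ j ‖x‖, hTest, ?_, ?_⟩
  · apply Ln_of_ptwise (C := C + Cw)
    · intro j
      have : u = fun x => p ‖x‖ := funext hu
      rw [this]
      exact (((hΘc j).comp continuous_norm).sub (hp.comp continuous_norm)).aestronglyMeasurable
    · intro j
      filter_upwards [h0] with x hx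
      rw [hu x, Real.norm_eq_abs]
      refine (hval j _ hx.2).trans ?_
      have h1 : ∫ r in Ioo (0:ℝ) 1, ‖ψ j r - w r‖ ≤ ∫ r in Ioo (0:ℝ) 1, (C + Cw) := by
        apply setIntegral_mono_on
        · have : IntegrableOn (fun r => ‖ψ j r - w r‖) (Icc 0 1) :=
            (((hψc j).sub hw).norm).continuousOn.integrableOn_compact isCompact_Icc
          exact this.mono_set Ioo_subset_Icc_self
        · exact integrableOn_const (by simp)
        · exact measurableSet_Ioo
        · exact hdiffb j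
      refine h1.trans ?_
      simp
    · filter_upwards [h0] with x hx
      rw [hu x]
      rw [tendsto_zero_iff_abs_tendsto_zero]
      exact squeeze_zero (fun _ => abs_nonneg _) (fun j => hval j _ hx.2) hL1
  · have e : ∀ j, ∀ x : E 0, x ≠ 0 → gradient (fun x : E 0 => Θ j ‖x‖) x - G x =
        ((ψ j ‖x‖ - w ‖x‖) / ‖x‖) • x := by
      intro j x hx
      rw [hgr, hG x hx, ← sub_smul]
      congr 1
      ring
    apply Ln_of_ptwise (C := C + Cw)
    · intro j
      exact ((grad_cont (hTest j)).aestronglyMeasurable).sub hGm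
    · intro j
      filter_upwards [h0] with x hx
      have hn := hx.2.1
      rw [e j x hx.1, norm_smul, norm_div, norm_norm]
      have : ‖ψ j ‖x‖ - w ‖x‖‖ / ‖x‖ * ‖x‖ = ‖ψ j ‖x‖ - w ‖x‖‖ := by field_simp
      rw [this]
      exact hdiffb j _ hx.2
    · filter_upwards [h0] with x hx
      have h1 := (((hlim _ hx.2).sub_const (w ‖x‖)).div_const ‖x‖).smul_const x
      simp only [sub_self, zero_div, zero_smul] at h1
      refine h1.congr fun j => ?_
      rw [e j x hx.1]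

end Pool.Agent.R217.MT
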