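import Pool.Agent.R217.MT.Ex2

set_option autoImplicit false

open Filter Topology Set MeasureTheory
open scoped ENNReal InnerProductSpace BoundedContinuousFunction

namespace Pool.Agent.R217.MT

open Pool.Agent.R217.NL (E BB IsTest W0 energy UU UU_cont norm_e0 norm_smul_e0 mem_e0 e0 sph
  sph_pos polar exists_test Prof Dat mB LnB L1_of_Ln Ut grad_cont grad_bound qm qm_meas exp_mem
  exp_tend sg bdd_int pm pm_deriv qm_cont pm_one pm_cont)

/-- Polar coordinates for continuous functions. -/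
lemma bpolar {h : E 0 → ℝ} (hc : Continuous h) : ∫ x in BB 0, h x =
    ∫ r in Ioo (0:ℝ) 1, r * ∫ ω, h (r • (ω : E 0)) ∂(sg 0) := by
  have hmp := (volume : Measure (E 0)).measurePreserving_homeomorphUnitSphereProd
  have hBm : MeasurableSet (BB 0) := measurableSet_ball
  obtain ⟨H, hH⟩ : ∃ H : E 0 → ℝ, H = (BB 0).indicator h := ⟨_, rfl⟩
  have hHi : Integrable H volume := by
    rw [hH]; exact (integrable_indicator_iff hBm).2 (bdd_int hc)
  have h0 : ∫ x in BB 0, h x = ∫ x, H x := by rw [hH]; exact (integral_indicator hBm).symm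
  have h1 : ∫ x, H x = ∫ x : ({0}ᶜ : Set (E 0)), H x ∂(volume.comap Subtype.val) := by
    rw [integral_subtype_comap (measurableSet_singleton _).compl (fun x => H x),
      restrict_compl_singleton]
  obtain ⟨K, hK⟩ : ∃ K : Metric.sphere (0 : E 0) 1 × Ioi (0:ℝ) → ℝ,
      ∀ p, K p = H (p.2.1 • (p.1 : E 0)) := ⟨_, fun p => rfl⟩
  have hKH : ∀ x : ({0}ᶜ : Set (E 0)), K (homeomorphUnitSphereProd (E 0) x) = H x := by
    intro x
    rw [hK]
    have hx : ‖(x : E 0)‖ ≠ 0 := norm_ne_zero_iff.2 x.2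
    congr 1
    simp [hx]
  have h2 : ∫ x : ({0}ᶜ : Set (E 0)), H x ∂(volume.comap Subtype.val) =
      ∫ p, K p ∂((sg 0).prod (Measure.volumeIoiPow (Module.finrank ℝ (E 0) - 1))) := by
    rw [← hmp.integral_comp (Homeomorph.measurableEmbedding _)]
    simp_rw [hKH]
  have hKi : Integrable K ((sg 0).prod (Measure.volumeIoiPow (Module.finrank ℝ (E 0) - 1))) := by
    rw [← hmp.integrable_comp_emb (Homeomorph.measurableEmbedding _)]
    have e : K ∘ (homeomorphUnitSphereProd (E 0)) = H ∘ Subtype.val := funext hKH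
    rw [e]
    exact (integrableOn_iff_comap_subtypeVal (measurableSet_singleton _).compl).1 hHi.integrableOn
  have h3 : Measure.volumeIoiPow (Module.finrank ℝ (E 0) - 1) = Measure.volumeIoiPow 1 := by
    rw [finrank_euclideanSpace_fin]
  rw [h3] at h2 hKi
  rw [h0, h1, h2, integral_prod_symm K hKi]
  have h4 : ∫ r : Ioi (0:ℝ), (∫ x, K (x, r) ∂(sg 0)) ∂(Measure.volumeIoiPow 1) =
      ∫ r in Ioi (0:ℝ), r * ∫ ω, H (r • (ω : E 0)) ∂(sg 0) := by
    simp only [Measure.volumeIoiPow, ENNReal.ofReal]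
    rw [integral_withDensity_eq_integral_smul ((measurable_subtype_coe.pow_const _).real_toNNReal)]
    simp_rw [hK]
    rw [integral_subtype_comap measurableSet_Ioi fun a : ℝ => Real.toNNReal (a ^ 1) •
      ∫ ω, H (a • (ω : E 0)) ∂(sg 0)]
    apply setIntegral_congr_fun measurableSet_Ioi
    intro x hx
    simp only [pow_one]
    rw [NNReal.smul_def, Real.coe_toNNReal _ (le_of_lt hx)]
    rfl
  rw [h4]
  have h5 : ∀ s ∈ Ioi (0:ℝ), s * ∫ x, H (s • (x : E 0)) ∂(sg 0) =
      (Iio (1:ℝ)).indicator (fun s => s * ∫ x, h (s • (x : E 0)) ∂(sg 0)) s := by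
    intro s hs
    have hs0 : (0:ℝ) < s := hs
    have hn : ∀ x : Metric.sphere (0 : E 0) 1, ‖s • (x : E 0)‖ = s := by
      intro x
      rw [norm_smul, norm_eq_of_mem_sphere x, mul_one, Real.norm_eq_abs, abs_of_pos hs0]
    by_cases h1 : s < 1
    · rw [indicator_of_mem (by exact h1)]
      congr 1
      apply integral_congr_ae
      refine ae_of_all _ fun x => ?_
      simp only []
      rw [hH, indicator_of_mem]
      rw [BB, mem_ball_zero_iff, hn]; exact h1
    · rw [indicator_of_notMem (by exact h1)]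
      have : ∀ x : Metric.sphere (0 : E 0) 1, H (s • (x : E 0)) = 0 := by
        intro x
        rw [hH, indicator_of_notMem]
        rw [BB, mem_ball_zero_iff, hn]; exact h1
      simp_rw [this]
      simp
  rw [setIntegral_congr_fun measurableSet_Ioi h5, setIntegral_indicator measurableSet_Iio]
  rfl

/-- The solution with a prescribed maximum. -/
theorem exists_sol {μ : ℝ} (hμ : 0 < μ) : ∃ (lam : ℝ) (u : E 0 → ℝ) (G : E 0 → E 0),
    SolE gG lam u G ∧ u 0 = μ := by
  obtain ⟨R, v, hR, hv, hv0, hvR, hpos, hle, hd⟩ := exists_profile hμ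
  obtain ⟨Γ, hΓ⟩ : ∃ Γ, Γ = GG μ v := ⟨_, rfl⟩
  have hΓc : Continuous Γ := by rw [hΓ]; exact GG_cont μ hv
  obtain ⟨A, hA⟩ : ∃ A : ℝ → ℝ, ∀ x, A x = ∫ t in (0:ℝ)..x, fG (cl μ (v t)) := ⟨_, fun x => rfl⟩
  have hAd : ∀ x, HasDerivAt A (fG (cl μ (v x))) x := by
    intro x
    have e : A = fun x => ∫ t in (0:ℝ)..x, fG (cl μ (v t)) := funext hA
    rw [e]
    exact ((fc_cont μ hv).integral_hasStrictDerivAt 0 x).hasDerivAt
  have hΓA : ∀ x, x * Γ x = A x := by intro x; rw [hΓ, hA]; exact GG_mul μ v x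
  obtain ⟨w, hw⟩ : ∃ w : ℝ → ℝ, ∀ r, w r = -(2 * R * r * Γ (R * r ^ 2)) := ⟨_, fun r => rfl⟩
  obtain ⟨p, hp⟩ : ∃ p : ℝ → ℝ, ∀ r, p r = v (R * r ^ 2) := ⟨_, fun r => rfl⟩
  have hwc : Continuous w := by
    have e : w = fun r => -(2 * R * r * Γ (R * r ^ 2)) := funext hw
    rw [e]; fun_prop
  have hpc : Continuous p := by
    have e : p = fun r => v (R * r ^ 2) := funext hp
    rw [e]; fun_prop
  have hpd : ∀ r ∈ Ioo (0:ℝ) 1, HasDerivAt p (w r) r := by
    intro r hr
    have e : p = v ∘ fun r => R * r ^ 2 := funext hp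
    rw [e, hw]
    have h1 : HasDerivAt (fun r : ℝ => R * r ^ 2) (R * (2 * r)) r := by
      have := (hasDerivAt_pow 2 r).const_mul R
      simpa using this
    have hx : 0 < R * r ^ 2 := by have := hr.1; positivity
    have h2 := (hd _ hx).comp r h1
    refine h2.congr_deriv ?_
    rw [hΓ]; ring
  have hp1 : p 1 = 0 := by rw [hp]; simpa using hvR
  obtain ⟨u, hu⟩ : ∃ u : E 0 → ℝ, ∀ x, u x = p ‖x‖ := ⟨_, fun x => rfl⟩
  obtain ⟨G, hG⟩ : ∃ G : E 0 → E 0, ∀ x, G x = -(2 * R * Γ (R * ‖x‖ ^ 2)) • x :=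
    ⟨_, fun x => rfl⟩
  have huc : Continuous u := by
    have e : u = fun x => p ‖x‖ := funext hu
    rw [e]; exact hpc.comp continuous_norm
  have hGc : Continuous G := by
    have e : G = fun x : E 0 => -(2 * R * Γ (R * ‖x‖ ^ 2)) • x := funext hG
    rw [e]
    have h1 : Continuous fun x : E 0 => -(2 * R * Γ (R * ‖x‖ ^ 2)) := by fun_prop
    exact h1.smul continuous_id
  have hrange : ∀ r, 0 ≤ r → r < 1 → 0 ≤ R * r ^ 2 ∧ R * r ^ 2 < R := by
    intro r h0 h1
    have : r ^ 2 < 1 := by nlinarith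
    exact ⟨by positivity, by nlinarith⟩
  have hppos : ∀ r, 0 ≤ r → r < 1 → 0 < p r := by
    intro r h0 h1
    rw [hp]
    exact hpos _ (hrange r h0 h1).1 (hrange r h0 h1).2
  refine ⟨4 * R, u, G, ⟨by positivity, hGc.aestronglyMeasurable, huc.continuousOn, ?_, ?_, ?_, ?_,
    ?_⟩, ?_⟩
  · apply W0_radial hpc hwc hpd hp1 hu _ hGc.aestronglyMeasurable
    intro x hx
    have hn : 0 < ‖x‖ := norm_pos_iff.2 hx
    rw [hG, hw]
    congr 1
    field_simp
  · intro x hx
    rw [BB, mem_ball_zero_iff] at hx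
    rw [hu]
    exact hppos _ (norm_nonneg x) hx
  · intro x _ y _ hxy
    rw [hu, hu, hxy]
  · intro x _
    rw [hu, hu, hp, hp]
    simp only [norm_zero, ne_eq, OfNat.ofNat_ne_zero, not_false_eq_true, zero_pow, mul_zero]
    rw [hv0]
    exact hle _ (by positivity)
  · intro φ hφ
    simp_rw [rhsG_eq]
    have hφc : Continuous φ := hφ.1.continuous
    have hgc := grad_cont hφ
    have hcc : Continuous fun x : E 0 => fG (u x) * φ x := (fG_cont.comp huc).mul hφc
    rw [bpolar (hGc.inner hgc), bpolar hcc]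
    have hsp := sph_pos (d := 0)
    -- inner integrals
    have e1 : ∀ r ∈ Ioo (0:ℝ) 1, r * ∫ ω, ⟪G (r • (ω : E 0)), gradient φ (r • (ω : E 0))⟫_ℝ ∂(sg 0) =
        sph 0 * ((r * w r) * qm 0 (gradient φ) r) := by
      intro r hr
      have hr0 := hr.1
      have a1 : ∀ ω : Metric.sphere (0 : E 0) 1, ⟪G (r • (ω : E 0)), gradient φ (r • (ω : E 0))⟫_ℝ =
          w r * ⟪gradient φ (r • (ω : E 0)), (ω : E 0)⟫_ℝ := by
        intro ω
        have hn : ‖r • (ω : E 0)‖ = r := by
          rw [norm_smul, norm_eq_of_mem_sphere ω, mul_one, Real.norm_eq_abs, abs_of_pos hr0]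
        rw [hG, hn, smul_smul, inner_smul_left, real_inner_comm, hw]
        congr 1
        simp
        ring
      simp_rw [a1]
      rw [integral_const_mul]
      unfold qm
      field_simp
    have e2 : ∀ r ∈ Ioo (0:ℝ) 1, r * ∫ ω, fG (u (r • (ω : E 0))) * φ (r • (ω : E 0)) ∂(sg 0) =
        sph 0 * ((r * fG (v (R * r ^ 2))) * pm 0 φ r) := by
      intro r hr
      have hr0 := hr.1
      have a1 : ∀ ω : Metric.sphere (0 : E 0) 1, fG (u (r • (ω : E 0))) * φ (r • (ω : E 0)) =
          fG (v (R * r ^ 2)) * φ (r • (ω : E 0)) := by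
        intro ω
        have hn : ‖r • (ω : E 0)‖ = r := by
          rw [norm_smul, norm_eq_of_mem_sphere ω, mul_one, Real.norm_eq_abs, abs_of_pos hr0]
        rw [hu, hn, hp]
      simp_rw [a1]
      rw [integral_const_mul]
      unfold pm
      field_simp
    rw [setIntegral_congr_fun measurableSet_Ioo e1, setIntegral_congr_fun measurableSet_Ioo e2,
      integral_const_mul, integral_const_mul]
    -- integration by parts
    have hB : ∀ r, HasDerivAt (fun r => r * w r) (-(4 * R * (r * fG (cl μ (v (R * r ^ 2)))))) r := by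
      intro r
      have e4 : (fun r => r * w r) = fun r => -2 * A (R * r ^ 2) := by
        funext r
        rw [hw, ← hΓA]; ring
      rw [e4]
      have h1 : HasDerivAt (fun r : ℝ => R * r ^ 2) (R * (2 * r)) r := by
        have := (hasDerivAt_pow 2 r).const_mul R
        simpa using this
      have h2 := ((hAd _).comp r h1).const_mul (-2)
      refine h2.congr_deriv ?_
      ring
    have hf1 : Continuous fun r : ℝ => fG (cl μ (v (R * r ^ 2))) := by
      have := fc_cont μ hv
      exact this.comp (by fun_prop)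
    have c1 := pm_cont hφ
    have c2 := qm_cont hφ
    have hcB : Continuous fun r : ℝ => r * w r := continuous_id.mul hwc
    have i1 : Continuous fun r : ℝ => -(4 * R * (r * fG (cl μ (v (R * r ^ 2))))) * pm 0 φ r := by
      fun_prop
    have i2 : Continuous fun r : ℝ => (r * w r) * qm 0 (gradient φ) r := hcB.mul c2
    have hI := intervalIntegral.integral_eq_sub_of_hasDerivAt (a := 0) (b := 1)
      (fun r _ => (hB r).mul (pm_deriv hφ r)) ((i1.add i2).intervalIntegrable _ _)
    simp only [Pi.mul_apply] at hI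
    rw [pm_one hφ, intervalIntegral.integral_add (i1.intervalIntegrable _ _)
      (i2.intervalIntegrable _ _)] at hI
    simp only [mul_zero, zero_mul, sub_zero] at hI
    have e5 : ∀ f : ℝ → ℝ, ∫ r in (0:ℝ)..1, f r = ∫ r in Ioo (0:ℝ) 1, f r := by
      intro f
      rw [intervalIntegral.integral_of_le zero_le_one, integral_Ioc_eq_integral_Ioo]
    rw [e5, e5] at hI
    have e6 : ∫ r in Ioo (0:ℝ) 1, -(4 * R * (r * fG (cl μ (v (R * r ^ 2))))) * pm 0 φ r =
        -(4 * R) * ∫ r in Ioo (0:ℝ) 1, (r * fG (v (R * r ^ 2))) * pm 0 φ r := by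
      rw [← integral_const_mul]
      apply setIntegral_congr_fun measurableSet_Ioo
      intro r hr
      simp only []
      obtain ⟨h1, h2⟩ := hrange r hr.1.le hr.2
      rw [cl_eq (hpos _ h1 h2).le (hle _ h1)]
      ring
    rw [e6] at hI
    linear_combination (sph 0) * hI
  · rw [hu, hp]
    simpa using hv0

lemma adm : Adm gG := by
  have hw : Continuous ww := continuous_iff_continuousAt.2 fun t => (ww_deriv t).continuousAt
  refine ⟨?_, ⟨0, by norm_num, ?_⟩, ?_, ?_⟩
  · rw [contDiff_one_iff_deriv]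
    refine ⟨fun t => (gG_deriv t).differentiableAt, ?_⟩
    have e : deriv gG = fun t => Real.exp (th t) * -(t / ww t ^ 3) :=
      funext fun t => (gG_deriv t).deriv
    rw [e]
    have h1 : Continuous th := continuous_iff_continuousAt.2 fun t => (th_deriv t).continuousAt
    have h2 : Continuous fun t : ℝ => t / ww t ^ 3 := continuous_id.div (hw.pow 3)
      (fun t => pow_ne_zero 3 (ww_pos t).ne')
    fun_prop
  · intro t
    have h1 := th_pos t
    have h2 : gG t = Real.exp (th t) - 1 := rfl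
    rw [h2]
    have := Real.add_one_le_exp (th t)
    linarith
  · intro t
    unfold gG
    simp
  · have h1 : Tendsto ww atTop atTop := by
      refine tendsto_atTop_mono' _ ?_ tendsto_id
      filter_upwards [eventually_ge_atTop 0] with t ht
      exact ww_ge' ht
    have h2 : Tendsto th atTop (𝓝 0) := h1.inv_tendsto_atTop
    have h3 := ((Real.continuous_exp.tendsto 0).comp h2).sub_const 1
    rw [Real.exp_zero, sub_self] at h3
    exact h3

theorem exists_blow : ∃ lam u G, Blow gG lam u G := by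
  have h : ∀ k : ℕ, ∃ (lam : ℝ) (u : E 0 → ℝ) (G : E 0 → E 0), SolE gG lam u G ∧
      u 0 = (k:ℝ) + 1 := fun k => exists_sol (by positivity)
  choose lam u G h1 h2 using h
  refine ⟨lam, u, G, h1, ?_⟩
  simp_rw [h2]
  exact tendsto_atTop_add_const_right _ _ tendsto_natCast_atTop_atTop

/-- The final answer. -/
theorem main : Adm gG ∧ (∃ lam u G, Blow gG lam u G) ∧ Expansion gG (2 * Real.pi) 3 :=
  ⟨adm, exists_blow, expansion⟩

end Pool.Agent.R217.MT
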