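import Mathlib

set_option autoImplicit false

open Filter Topology Set

namespace Pool.Agent.R217.MT

/-- `w = √(1+t²)`. -/
noncomputable def ww (t : ℝ) : ℝ := √(1 + t ^ 2)

/-- `θ = (1+t²)^{-1/2}`, so that `1 + g = e^θ`. -/
noncomputable def th (t : ℝ) : ℝ := (ww t)⁻¹

/-- `D = t + θ'/2`. -/
noncomputable def DD (t : ℝ) : ℝ := t - t / (2 * ww t ^ 3)

/-- `Φ = (t² + θ)/2`, so that `F = e^{2Φ}`. -/
noncomputable def Ph (t : ℝ) : ℝ := (t ^ 2 + th t) / 2

lemma ww_sq (t : ℝ) : ww t ^ 2 = 1 + t ^ 2 := Real.sq_sqrt (by positivity)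

lemma ww_pos (t : ℝ) : 0 < ww t := Real.sqrt_pos.2 (by positivity)

lemma ww_ge (t : ℝ) : 1 ≤ ww t := by
  have := ww_sq t
  have := ww_pos t
  nlinarith [sq_nonneg t]

lemma ww_ge' {t : ℝ} (ht : 0 ≤ t) : t ≤ ww t := by
  have := ww_sq t
  have := ww_pos t
  nlinarith

lemma ww_deriv (t : ℝ) : HasDerivAt ww (t / ww t) t := by
  have h1 : HasDerivAt (fun t : ℝ => 1 + t ^ 2) (2 * t) t := by
    simpa using ((hasDerivAt_id t).pow 2).const_add 1
  have h2 := h1.sqrt (by positivity)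
  refine h2.congr_deriv ?_
  have := ww_pos t
  unfold ww
  field_simp

lemma th_deriv (t : ℝ) : HasDerivAt th (-(t / ww t ^ 3)) t := by
  have hw := ww_pos t
  refine ((ww_deriv t).inv hw.ne').congr_deriv ?_
  field_simp

lemma th_pos (t : ℝ) : 0 < th t := inv_pos.2 (ww_pos t)

lemma th_le (t : ℝ) : th t ≤ 1 := inv_le_one_of_one_le₀ (ww_ge t)

lemma Ph_deriv (t : ℝ) : HasDerivAt Ph (DD t) t := by
  have h1 : HasDerivAt (fun t : ℝ => t ^ 2) (2 * t) t := by
    have := hasDerivAt_pow 2 t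
    simpa using this
  refine ((h1.add (th_deriv t)).div_const 2).congr_deriv ?_
  have := ww_pos t
  unfold DD
  field_simp
  ring

lemma DD_le {t : ℝ} (ht : 0 ≤ t) : DD t ≤ t := by
  have := ww_pos t
  unfold DD
  have : 0 ≤ t / (2 * ww t ^ 3) := by positivity
  linarith

lemma DD_ge {t : ℝ} (ht : 0 ≤ t) : t / 2 ≤ DD t := by
  have hw := ww_ge t
  unfold DD
  have h1 : (1:ℝ) ≤ ww t ^ 3 := one_le_pow₀ hw
  have : t / (2 * ww t ^ 3) ≤ t / (2 * 1) := by gcongr
  linarith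

lemma DD_pos {t : ℝ} (ht : 0 < t) : 0 < DD t := by
  have := DD_ge ht.le
  linarith

/-- The perturbation term. -/
noncomputable def ep (t : ℝ) : ℝ := t / ww t ^ 3

lemma ep_deriv (t : ℝ) : HasDerivAt ep (1 / ww t ^ 3 - 3 * t ^ 2 / ww t ^ 5) t := by
  have hw := ww_pos t
  refine ((hasDerivAt_id t).div ((ww_deriv t).pow 3) (pow_ne_zero 3 hw.ne')).congr_deriv ?_
  simp
  field_simp

lemma DD_eq (t : ℝ) : DD t = t - ep t / 2 := by
  have hw := ww_pos t
  unfold DD ep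
  field_simp

lemma ep_der_le {t : ℝ} (ht : 0 < t) : |1 / ww t ^ 3 - 3 * t ^ 2 / ww t ^ 5| ≤ 3 / t ^ 3 := by
  have hw := ww_pos t
  have h1 := ww_ge' ht.le
  have h2 := ww_sq t
  have e1 : 1 / ww t ^ 3 - 3 * t ^ 2 / ww t ^ 5 = (1 - 2 * t ^ 2) / ww t ^ 5 := by
    have : ww t ^ 5 = ww t ^ 3 * ww t ^ 2 := by ring
    rw [this, h2]
    field_simp
    ring
  have e2 : |1 - 2 * t ^ 2| ≤ 3 * ww t ^ 2 := by
    rw [h2, abs_le]
    constructor <;> nlinarith
  rw [e1, abs_div, abs_of_pos (by positivity : (0:ℝ) < ww t ^ 5)]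
  calc |1 - 2 * t ^ 2| / ww t ^ 5 ≤ 3 * ww t ^ 2 / ww t ^ 5 := by gcongr
    _ = 3 / ww t ^ 3 := by field_simp
    _ ≤ 3 / t ^ 3 := by gcongr

lemma DD_deriv (t : ℝ) : HasDerivAt DD (1 - (1 / ww t ^ 3 - 3 * t ^ 2 / ww t ^ 5) / 2) t := by
  have e : DD = fun t => t - ep t / 2 := funext DD_eq
  rw [e]
  exact (hasDerivAt_id t).sub ((ep_deriv t).div_const 2)

lemma DD_mono {x y : ℝ} (hxy : x ≤ y) : DD x ≤ DD y := by
  have hm : Monotone DD := by
    apply monotone_of_deriv_nonneg (fun t => (DD_deriv t).differentiableAt)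
    intro t
    rw [(DD_deriv t).deriv]
    have hw := ww_ge t
    have h1 : 1 / ww t ^ 3 ≤ 1 := by
      rw [div_le_one (by positivity)]; exact one_le_pow₀ hw
    have h2 : 0 ≤ 3 * t ^ 2 / ww t ^ 5 := by positivity
    linarith
  exact hm hxy

lemma ep_diff {u μ : ℝ} (hμ : 0 < μ) (hu : μ / 2 ≤ u) (huμ : u ≤ μ) :
    |ep μ - ep u| ≤ 24 / μ ^ 3 * (μ - u) := by
  have h := Convex.norm_image_sub_le_of_norm_hasDerivWithin_le (f := ep)
    (f' := fun t => 1 / ww t ^ 3 - 3 * t ^ 2 / ww t ^ 5) (C := 24 / μ ^ 3) (s := Icc u μ)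
    (x := u) (y := μ) (fun t _ => (ep_deriv t).hasDerivWithinAt) (fun t ht => by
      have ht0 : 0 < t := by linarith [ht.1]
      refine (ep_der_le ht0).trans ?_
      have : (μ / 2) ^ 3 ≤ t ^ 3 := by
        have : μ / 2 ≤ t := hu.trans ht.1
        gcongr
      rw [div_le_div_iff₀ (by positivity) (by positivity)]
      nlinarith) (convex_Icc u μ) ⟨le_rfl, huμ⟩ ⟨huμ, le_rfl⟩
  rw [Real.norm_eq_abs, Real.norm_eq_abs, abs_of_nonneg (by linarith : 0 ≤ μ - u)] at h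
  exact h

/-- `Q = λ e^{2s} F(u)`. -/
noncomputable def QQ (lam : ℝ) (u : ℝ → ℝ) (s : ℝ) : ℝ :=
  lam * Real.exp (2 * s) * Real.exp (2 * Ph (u s))

/-- The radial solution in the variable `s = log r`. -/
structure SolG (lam μ En : ℝ) (u m e : ℝ → ℝ) : Prop where
  hlam : 0 < lam
  upos : ∀ s < 0, 0 < u s
  mpos : ∀ s < 0, 0 < m s
  du : ∀ s < 0, HasDerivAt u (-(m s)) s
  dm : ∀ s < 0, HasDerivAt m (DD (u s) * QQ lam u s) s
  de : ∀ s < 0, HasDerivAt e (m s ^ 2) s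
  lu : Tendsto u atBot (𝓝 μ)
  lm : Tendsto m atBot (𝓝 0)
  le : Tendsto e atBot (𝓝 0)
  ru : Tendsto u (𝓝[<] 0) (𝓝 0)
  re : Tendsto e (𝓝[<] 0) (𝓝 En)

lemma mono_lim {F F' : ℝ → ℝ} {s1 L : ℝ} (hd : ∀ s ≤ s1, HasDerivAt F (F' s) s)
    (h0 : ∀ s ≤ s1, 0 ≤ F' s) (hl : Tendsto F atBot (𝓝 L)) : L ≤ F s1 := by
  have hm : MonotoneOn F (Iic s1) := by
    apply monotoneOn_of_deriv_nonneg (convex_Iic s1)
      (fun s hs => (hd s hs).continuousAt.continuousWithinAt)
    · intro s hs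
      rw [interior_Iic] at hs
      exact (hd s hs.le).differentiableAt.differentiableWithinAt
    · intro s hs
      rw [interior_Iic] at hs
      rw [(hd s hs.le).deriv]
      exact h0 s hs.le
  refine le_of_tendsto hl ?_
  filter_upwards [eventually_le_atBot s1] with s hs
  exact hm hs (mem_Iic.2 le_rfl) hs

/-- Monotonicity on an interval of the negative axis. -/
lemma mono_icc {F F' : ℝ → ℝ} {s1 s2 : ℝ} (h12 : s1 ≤ s2)
    (hd : ∀ s, s1 ≤ s → s ≤ s2 → HasDerivAt F (F' s) s)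
    (h0 : ∀ s, s1 ≤ s → s ≤ s2 → 0 ≤ F' s) : F s1 ≤ F s2 := by
  have hm : MonotoneOn F (Icc s1 s2) := by
    apply monotoneOn_of_deriv_nonneg (convex_Icc s1 s2)
      (fun s hs => (hd s hs.1 hs.2).continuousAt.continuousWithinAt)
    · intro s hs
      rw [interior_Icc] at hs
      exact (hd s hs.1.le hs.2.le).differentiableAt.differentiableWithinAt
    · intro s hs
      rw [interior_Icc] at hs
      rw [(hd s hs.1.le hs.2.le).deriv]
      exact h0 s hs.1.le hs.2.le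
  exact hm ⟨le_rfl, h12⟩ ⟨h12, le_rfl⟩ h12

section

variable {lam μ En : ℝ} {u m e : ℝ → ℝ}

lemma SolG.QQ_pos (h : SolG lam μ En u m e) (s : ℝ) : 0 < QQ lam u s := by
  unfold QQ
  have := h.hlam
  positivity

lemma SolG.dmp (h : SolG lam μ En u m e) {s : ℝ} (hs : s < 0) : 0 < DD (u s) * QQ lam u s :=
  mul_pos (DD_pos (h.upos s hs)) (h.QQ_pos s)

lemma SolG.dQ (h : SolG lam μ En u m e) {s : ℝ} (hs : s < 0) :
    HasDerivAt (QQ lam u) (2 * QQ lam u s * (1 - DD (u s) * m s)) s := by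
  have h1 : HasDerivAt (fun s : ℝ => Real.exp (2 * s)) (Real.exp (2 * s) * 2) s := by
    simpa using ((hasDerivAt_id s).const_mul 2).exp
  have h2 : HasDerivAt (fun s : ℝ => Real.exp (2 * Ph (u s)))
      (Real.exp (2 * Ph (u s)) * (2 * (DD (u s) * -(m s)))) s :=
    (((Ph_deriv (u s)).comp s (h.du s hs)).const_mul 2).exp
  refine ((h1.const_mul lam).mul h2).congr_deriv ?_
  unfold QQ
  ring

lemma SolG.dJ (h : SolG lam μ En u m e) {s : ℝ} (hs : s < 0) :
    HasDerivAt (fun s => m s ^ 2 / 2 + QQ lam u s / 2) (QQ lam u s) s := by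
  refine ((((h.dm s hs).pow 2).div_const 2).add ((h.dQ hs).div_const 2)).congr_deriv ?_
  simp
  ring

lemma SolG.u_anti (h : SolG lam μ En u m e) {s t : ℝ} (hst : s ≤ t) (ht : t < 0) : u t ≤ u s := by
  have := mono_icc (F := fun r => -(u r)) (F' := fun r => -(-(m r))) hst
    (fun r _ hr2 => (h.du r (lt_of_le_of_lt hr2 ht)).neg)
    (fun r _ hr2 => by have := h.mpos r (lt_of_le_of_lt hr2 ht); linarith)
  simp only [neg_le_neg_iff] at this
  exact this

lemma SolG.m_mono (h : SolG lam μ En u m e) {s t : ℝ} (hst : s ≤ t) (ht : t < 0) : m s ≤ m t :=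
  mono_icc hst (fun r _ hr2 => h.dm r (lt_of_le_of_lt hr2 ht))
    (fun r _ hr2 => (h.dmp (lt_of_le_of_lt hr2 ht)).le)

lemma SolG.u_le (h : SolG lam μ En u m e) {s : ℝ} (hs : s < 0) : u s ≤ μ := by
  refine ge_of_tendsto h.lu ?_
  filter_upwards [eventually_le_atBot s] with r hr
  exact h.u_anti hr hs

lemma SolG.μpos (h : SolG lam μ En u m e) : 0 < μ :=
  lt_of_lt_of_le (h.upos (-1) (by norm_num)) (h.u_le (by norm_num))

lemma SolG.e_nonneg (h : SolG lam μ En u m e) {s : ℝ} (hs : s < 0) : 0 ≤ e s :=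
  mono_lim (F := e) (F' := fun s => m s ^ 2) (fun r hr => h.de r (lt_of_le_of_lt hr hs))
    (fun r _ => sq_nonneg _) h.le

lemma SolG.exists_val (h : SolG lam μ En u m e) {x : ℝ} (hx : 0 < x) (hx2 : x < μ) :
    ∃ s < 0, u s = x := by
  have e1 : ∀ᶠ s in atBot, x < u s := h.lu.eventually (lt_mem_nhds hx2)
  have e2 : ∀ᶠ s in 𝓝[<] (0:ℝ), u s < x := h.ru.eventually (gt_mem_nhds hx)
  obtain ⟨s1, hs1, hs1'⟩ := (e1.and (eventually_lt_atBot (0:ℝ))).exists
  obtain ⟨s2, hs2, hs2'⟩ := (e2.and (Ioo_mem_nhdsLT (show (s1:ℝ) < 0 from hs1'))).exists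
  have hc : ContinuousOn u (Icc s1 s2) := fun r hr =>
    (h.du r (lt_of_le_of_lt hr.2 hs2'.2)).continuousAt.continuousWithinAt
  obtain ⟨r, hr, hr2⟩ := intermediate_value_Icc' hs2'.1.le hc ⟨hs2.le, hs1.le⟩
  exact ⟨r, lt_of_le_of_lt hr.2 hs2'.2, hr2⟩

lemma SolG.Q_lim (h : SolG lam μ En u m e) : Tendsto (QQ lam u) atBot (𝓝 0) := by
  have h1 : Tendsto (fun s : ℝ => Real.exp (2 * s)) atBot (𝓝 0) := by
    apply Real.tendsto_exp_atBot.comp
    exact tendsto_id.const_mul_atBot (by norm_num)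
  have h2 : Tendsto (fun s => Real.exp (2 * Ph (u s))) atBot (𝓝 (Real.exp (2 * Ph μ))) :=
    (Real.continuous_exp.tendsto _).comp
      (((Ph_deriv μ).continuousAt.tendsto.comp h.lu).const_mul 2)
  have h3 := (h1.const_mul lam).mul h2
  simp only [mul_zero, zero_mul] at h3
  exact h3

lemma SolG.J_lim (h : SolG lam μ En u m e) :
    Tendsto (fun s => m s ^ 2 / 2 + QQ lam u s / 2) atBot (𝓝 0) := by
  have := ((h.lm.pow 2).div_const 2).add (h.Q_lim.div_const 2)
  simpa using this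

lemma SolG.dW (h : SolG lam μ En u m e) {s : ℝ} (hs : s < 0) :
    HasDerivAt (fun s => u s * m s + e s) (u s * (DD (u s) * QQ lam u s)) s := by
  refine (((h.du s hs).mul (h.dm s hs)).add (h.de s hs)).congr_deriv ?_
  ring

lemma SolG.W_lim (h : SolG lam μ En u m e) :
    Tendsto (fun s => u s * m s + e s) atBot (𝓝 0) := by
  have := (h.lu.mul h.lm).add h.le
  simpa using this

/-- Lower bound: `m (2/D(μ) - m) ≤ Q`. -/
lemma SolG.Q_ge (h : SolG lam μ En u m e) {s : ℝ} (hs : s < 0) :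
    m s * (2 / DD μ - m s) ≤ QQ lam u s := by
  have hμ := h.μpos
  have hX := DD_pos hμ
  have h1 := mono_lim (F := fun r => (m r ^ 2 / 2 + QQ lam u r / 2) - 1 / DD μ * m r)
    (F' := fun r => QQ lam u r - 1 / DD μ * (DD (u r) * QQ lam u r)) (s1 := s)
    (fun r hr => (h.dJ (lt_of_le_of_lt hr hs)).sub ((h.dm r (lt_of_le_of_lt hr hs)).const_mul _))
    (fun r hr => by
      have hr0 := lt_of_le_of_lt hr hs
      have hQ := h.QQ_pos r
      have hD := DD_mono (h.u_le hr0)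
      have : 1 / DD μ * (DD (u r) * QQ lam u r) = (DD (u r) / DD μ) * QQ lam u r := by ring
      rw [this]
      have h2 : DD (u r) / DD μ ≤ 1 := by rw [div_le_one hX]; exact hD
      nlinarith) (L := 0 - 1 / DD μ * 0)
    (h.J_lim.sub (h.lm.const_mul _))
  simp only [mul_zero, sub_zero] at h1
  have : m s * (2 / DD μ - m s) = 2 * (1 / DD μ * m s) - m s ^ 2 := by ring
  rw [this]
  linarith

/-- Upper bound: `Q ≤ m (2/D(u) - m)`. -/
lemma SolG.Q_le (h : SolG lam μ En u m e) {s : ℝ} (hs : s < 0) :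
    QQ lam u s ≤ m s * (2 / DD (u s) - m s) := by
  have hμ := h.upos s hs
  have hX := DD_pos hμ
  have h1 := mono_lim (F := fun r => 1 / DD (u s) * m r - (m r ^ 2 / 2 + QQ lam u r / 2))
    (F' := fun r => 1 / DD (u s) * (DD (u r) * QQ lam u r) - QQ lam u r) (s1 := s)
    (fun r hr => ((h.dm r (lt_of_le_of_lt hr hs)).const_mul _).sub (h.dJ (lt_of_le_of_lt hr hs)))
    (fun r hr => by
      have hr0 := lt_of_le_of_lt hr hs
      have hQ := h.QQ_pos r
      have hD := DD_mono (h.u_anti hr hs)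
      have : 1 / DD (u s) * (DD (u r) * QQ lam u r) = (DD (u r) / DD (u s)) * QQ lam u r := by ring
      rw [this]
      have h2 : 1 ≤ DD (u r) / DD (u s) := by rw [one_le_div hX]; exact hD
      nlinarith) (L := 1 / DD (u s) * 0 - 0)
    ((h.lm.const_mul _).sub h.J_lim)
  simp only [mul_zero, sub_zero] at h1
  have : m s * (2 / DD (u s) - m s) = 2 * (1 / DD (u s) * m s) - m s ^ 2 := by ring
  rw [this]
  linarith

lemma SolG.m_le (h : SolG lam μ En u m e) {s : ℝ} (hs : s < 0) : m s ≤ 2 / DD (u s) := by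
  have h1 := h.Q_le hs
  have h2 := h.QQ_pos s
  have h3 := h.mpos s hs
  by_contra hc
  push Not at hc
  nlinarith

/-- Lower bound for `m`. -/
lemma SolG.m_ge (h : SolG lam μ En u m e) {s : ℝ} (hs : s < 0) :
    2 / DD μ * (1 - Real.exp (Ph (u s) - Ph μ)) ≤ m s := by
  have hμ := h.μpos
  have hX := DD_pos hμ
  -- `y e^{-Φ(u)}` is nonincreasing
  have h1 := mono_lim (F := fun r => (m r - 2 / DD μ) * Real.exp (-(Ph (u r))))
    (F' := fun r => (DD (u r) * QQ lam u r) * Real.exp (-(Ph (u r))) +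
      (m r - 2 / DD μ) * (Real.exp (-(Ph (u r))) * -(DD (u r) * -(m r)))) (s1 := s)
    (fun r hr => by
      have hr0 := lt_of_le_of_lt hr hs
      exact ((h.dm r hr0).sub_const _).mul ((((Ph_deriv (u r)).comp r (h.du r hr0)).neg).exp))
    (fun r hr => by
      have hr0 := lt_of_le_of_lt hr hs
      have hQ := h.Q_ge hr0
      have hE := Real.exp_pos (-(Ph (u r)))
      have hD := DD_pos (h.upos r hr0)
      have : (DD (u r) * QQ lam u r) * Real.exp (-(Ph (u r))) +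
        (m r - 2 / DD μ) * (Real.exp (-(Ph (u r))) * -(DD (u r) * -(m r))) =
        DD (u r) * Real.exp (-(Ph (u r))) * (QQ lam u r - m r * (2 / DD μ - m r)) := by ring
      rw [this]
      have : 0 ≤ QQ lam u r - m r * (2 / DD μ - m r) := by linarith
      positivity) (L := (0 - 2 / DD μ) * Real.exp (-(Ph μ)))
    ((h.lm.sub_const _).mul ((Real.continuous_exp.tendsto _).comp
      (((Ph_deriv μ).continuousAt.tendsto.comp h.lu).neg)))
  have h2 := mul_le_mul_of_nonneg_right h1 (Real.exp_pos (Ph (u s))).le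
  have e1 : (m s - 2 / DD μ) * Real.exp (-(Ph (u s))) * Real.exp (Ph (u s)) = m s - 2 / DD μ := by
    rw [mul_assoc, ← Real.exp_add]; simp
  have e2 : (0 - 2 / DD μ) * Real.exp (-(Ph μ)) * Real.exp (Ph (u s)) =
      -(2 / DD μ) * Real.exp (Ph (u s) - Ph μ) := by
    rw [mul_assoc, ← Real.exp_add]
    congr 1
    · ring
    · congr 1; ring
  rw [e1, e2] at h2
  linarith

/-- Comparison of `Q` after a point `s0`. -/
lemma SolG.Q_outer (h : SolG lam μ En u m e) {s0 s : ℝ} (hs0 : s0 ≤ s) (hs : s < 0) :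
    QQ lam u s ≤ QQ lam u s0 *
      Real.exp (2 * Ph (u s) - 2 * Ph (u s0) + 2 / m s0 * (u s0 - u s)) := by
  have hs0' : s0 < 0 := lt_of_le_of_lt hs0 hs
  have hm0 := h.mpos s0 hs0'
  have h1 : s - s0 ≤ (u s0 - u s) / m s0 := by
    have := mono_icc (F := fun r => -(u r) - m s0 * r) (F' := fun r => -(-(m r)) - m s0 * 1) hs0
      (fun r _ hr2 => ((h.du r (lt_of_le_of_lt hr2 hs)).neg).sub ((hasDerivAt_id r).const_mul _))
      (fun r hr1 hr2 => by have := h.m_mono hr1 (lt_of_le_of_lt hr2 hs); linarith)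
    rw [le_div_iff₀ hm0]
    linarith
  have hl := h.hlam
  have e1 : QQ lam u s = QQ lam u s0 *
      Real.exp (2 * Ph (u s) - 2 * Ph (u s0) + 2 * (s - s0)) := by
    unfold QQ
    rw [mul_assoc (lam * Real.exp (2 * s0)), ← Real.exp_add, mul_assoc lam, mul_assoc lam,
      ← Real.exp_add, ← Real.exp_add]
    congr 2
    ring
  rw [e1]
  have := h.QQ_pos s0
  have h3 : 2 * (s - s0) ≤ 2 / m s0 * (u s0 - u s) := by
    have : 2 / m s0 * (u s0 - u s) = 2 * ((u s0 - u s) / m s0) := by ring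
    rw [this]; linarith
  gcongr

end

end Pool.Agent.R217.MT
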