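import Pool.Agent.R217.MT.Ode1

set_option autoImplicit false

open Filter Topology Set

namespace Pool.Agent.R217.MT

/-- `μ` is large. -/
structure Good (μ : ℝ) : Prop where
  h1 : 100 ≤ μ
  h2 : 1 ≤ Real.log μ
  h3 : 1000 * Real.log μ ≤ μ

lemma good_eventually : ∀ᶠ μ : ℝ in atTop, Good μ := by
  have e1 : ∀ᶠ μ : ℝ in atTop, Real.log μ / μ < 1 / 1000 := by
    have h := (Real.isLittleO_log_id_atTop).tendsto_div_nhds_zero
    exact h.eventually (gt_mem_nhds (by norm_num))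
  filter_upwards [eventually_ge_atTop 100, e1, Real.tendsto_log_atTop.eventually_ge_atTop 1]
    with μ h1 h2 h3
  refine ⟨h1, h3, ?_⟩
  rw [div_lt_iff₀ (by linarith)] at h2
  linarith

section

variable {lam μ En : ℝ} {u m e : ℝ → ℝ}

lemma exp_log_mul {μ : ℝ} (hμ : 0 < μ) (k : ℕ) : Real.exp (-(k * Real.log μ)) = (μ ^ k)⁻¹ := by
  rw [Real.exp_neg, Real.exp_nat_mul, Real.exp_log hμ]

lemma exp_one_le : Real.exp 1 ≤ 3 := by
  have := Real.exp_one_lt_d9
  linarith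

/-- The exponential at the first cut. -/
lemma cut_exp (hG : Good μ) :
    Real.exp (Ph (μ - 2 * Real.log μ / μ) - Ph μ) ≤ 3 / μ ^ 2 := by
  have h1 := hG.h1
  have h2 := hG.h2
  have h3 := hG.h3
  have hμ : 0 < μ := by linarith
  obtain ⟨L, hL⟩ : ∃ L, L = Real.log μ := ⟨_, rfl⟩
  rw [← hL] at h2 h3 ⊢
  have e1 : Ph (μ - 2 * L / μ) - Ph μ ≤ 1 + -((2:ℕ) * L) := by
    unfold Ph
    have t1 := th_le (μ - 2 * L / μ)
    have t2 := th_pos μ
    have e2 : (μ - 2 * L / μ) ^ 2 = μ ^ 2 - 4 * L + 4 * (L / μ) ^ 2 := by field_simp; ring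
    have e3 : L / μ ≤ 1 / 1000 := by rw [div_le_iff₀ hμ]; linarith
    have e4 : 0 ≤ L / μ := by positivity
    rw [e2]
    push_cast
    nlinarith
  calc Real.exp (Ph (μ - 2 * L / μ) - Ph μ) ≤ Real.exp (1 + -((2:ℕ) * L)) := Real.exp_le_exp.2 e1
    _ = Real.exp 1 * (μ ^ 2)⁻¹ := by rw [Real.exp_add, hL, exp_log_mul hμ]
    _ ≤ 3 * (μ ^ 2)⁻¹ := by gcongr; exact exp_one_le
    _ = 3 / μ ^ 2 := by ring

/-- Estimates at the first cut. -/
lemma SolG.cut0 (h : SolG lam μ En u m e) (hG : Good μ) {s : ℝ} (hs : s < 0)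
    (hu : u s = μ - 2 * Real.log μ / μ) :
    2 / DD μ * (1 - 3 / μ ^ 2) ≤ m s ∧ 2 / m s ≤ μ + 6 / μ ∧
      QQ lam u s ≤ 608 * Real.log μ / μ ^ 4 := by
  have h1 := hG.h1
  have h2 := hG.h2
  have h3 := hG.h3
  have hμ : 0 < μ := by linarith
  have hX := DD_pos hμ
  have hXle := DD_le hμ.le
  have hXge := DD_ge hμ.le
  have k1 : 2 / DD μ * (1 - 3 / μ ^ 2) ≤ m s := by
    refine le_trans ?_ (h.m_ge hs)
    rw [hu]
    have := cut_exp hG
    gcongr
  have h4 : 3 / μ ^ 2 ≤ 1 / 2 := by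
    rw [div_le_iff₀ (by positivity)]; nlinarith
  have hm := h.mpos s hs
  refine ⟨k1, ?_, ?_⟩
  · rw [div_le_iff₀ hm]
    have k2 : 2 / μ * (1 - 3 / μ ^ 2) ≤ m s := by
      refine le_trans ?_ k1
      have : (0:ℝ) ≤ 1 - 3 / μ ^ 2 := by linarith
      gcongr
    have k3 : 2 ≤ (μ + 6 / μ) * (2 / μ * (1 - 3 / μ ^ 2)) := by
      have e : (μ + 6 / μ) * (2 / μ * (1 - 3 / μ ^ 2)) = 2 + 6 / μ ^ 2 * (1 - 6 / μ ^ 2) := by
        field_simp; ring
      rw [e]
      have : 6 / μ ^ 2 ≤ 1 := by rw [div_le_one (by positivity)]; nlinarith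
      have : 0 ≤ 6 / μ ^ 2 * (1 - 6 / μ ^ 2) := by
        apply mul_nonneg (by positivity); linarith
      linarith
    refine k3.trans ?_
    gcongr
  · obtain ⟨L, hL⟩ : ∃ L, L = Real.log μ := ⟨_, rfl⟩
    rw [← hL] at h2 h3 hu ⊢
    have hδ : 2 * L / μ ≤ 1 / 500 := by rw [div_le_iff₀ hμ]; linarith
    have hδ0 : 0 ≤ 2 * L / μ := by positivity
    have hu0 : μ / 2 ≤ u s := by rw [hu]; linarith
    have hus := h.upos s hs
    have hD0 := DD_ge hus.le
    have hD0p := DD_pos hus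
    have hD : DD μ - DD (u s) ≤ 4 * L / μ := by
      have k := ep_diff hμ hu0 (h.u_le hs)
      rw [DD_eq, DD_eq]
      have k2 := (abs_le.1 k).1
      have e1 : μ - u s = 2 * L / μ := by rw [hu]; ring
      have e2 : 24 / μ ^ 3 ≤ 1 := by
        rw [div_le_one (by positivity)]
        nlinarith [pow_pos hμ 2, pow_le_pow_left₀ (by norm_num) h1 3]
      have e3 : 24 / μ ^ 3 * (μ - u s) ≤ 1 * (μ - u s) := by
        have : 0 ≤ μ - u s := by linarith [h.u_le hs]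
        gcongr
      have e4 : 4 * L / μ = 2 * (2 * L / μ) := by ring
      rw [e4]
      linarith
    have k5 := h.Q_le hs
    have k6 := h.m_le hs
    have k7 : 1 / DD (u s) ≤ 4 / μ := by
      rw [div_le_div_iff₀ hD0p hμ]; linarith
    have k8 : 1 / DD μ ≤ 2 / μ := by
      rw [div_le_div_iff₀ hX hμ]; linarith
    have k9 : 1 / DD (u s) - 1 / DD μ ≤ 32 * L / μ ^ 3 := by
      have : 1 / DD (u s) - 1 / DD μ = (DD μ - DD (u s)) * ((1 / DD (u s)) * (1 / DD μ)) := by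
        field_simp
      rw [this]
      have h0 : 0 ≤ DD μ - DD (u s) := by linarith [DD_mono (h.u_le hs)]
      calc (DD μ - DD (u s)) * ((1 / DD (u s)) * (1 / DD μ)) ≤ (4 * L / μ) * ((4 / μ) * (2 / μ)) := by
            gcongr
        _ = _ := by field_simp; ring
    have k10 : 2 / DD (u s) - m s ≤ 2 * (32 * L / μ ^ 3) + 12 / μ ^ 3 := by
      have e1 : 2 / DD (u s) = 2 * (1 / DD (u s)) := by ring
      have e2 : 2 / DD μ * (1 - 3 / μ ^ 2) = 2 * (1 / DD μ) - 6 / μ ^ 2 * (1 / DD μ) := by ring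
      have e3 : 6 / μ ^ 2 * (1 / DD μ) ≤ 6 / μ ^ 2 * (2 / μ) := by gcongr
      have e4 : 6 / μ ^ 2 * (2 / μ) = 12 / μ ^ 3 := by field_simp; norm_num
      rw [e1]
      rw [e2] at k1
      linarith
    have k11 : m s ≤ 8 / μ := by
      have e1 : 2 / DD (u s) = 2 * (1 / DD (u s)) := by ring
      have e2 : (8:ℝ) / μ = 2 * (4 / μ) := by ring
      rw [e2]; linarith
    have k12 : 0 ≤ 2 / DD (u s) - m s := by linarith
    calc QQ lam u s ≤ m s * (2 / DD (u s) - m s) := k5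
      _ ≤ 8 / μ * (2 * (32 * L / μ ^ 3) + 12 / μ ^ 3) := by gcongr
      _ = (512 * L + 96) / μ ^ 4 := by field_simp; ring
      _ ≤ 608 * L / μ ^ 4 := by gcongr; linarith

/-- The exponent after the first cut. -/
lemma SolG.Q_after (h : SolG lam μ En u m e) (hG : Good μ) {s0 s : ℝ} (h0 : s0 ≤ s) (hs : s < 0)
    (hu : u s0 = μ - 2 * Real.log μ / μ) :
    QQ lam u s ≤ 608 * Real.log μ / μ ^ 4 *
      Real.exp ((u s0 - u s) * ((2 * Real.log μ + 6) / μ - u s) + 1) := by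
  have hs0 : s0 < 0 := lt_of_le_of_lt h0 hs
  obtain ⟨c1, c2, c3⟩ := h.cut0 hG hs0 hu
  have k1 := h.Q_outer h0 hs
  have hQ := h.QQ_pos s0
  have hus := h.u_anti h0 hs
  have h1 := hG.h1
  have hμ : 0 < μ := by linarith
  refine k1.trans ?_
  have k2 : 2 * Ph (u s) - 2 * Ph (u s0) + 2 / m s0 * (u s0 - u s) ≤
      (u s0 - u s) * ((2 * Real.log μ + 6) / μ - u s) + 1 := by
    have t1 := th_le (u s)
    have t2 := th_pos (u s0)
    have e1 : 2 / m s0 * (u s0 - u s) ≤ (μ + 6 / μ) * (u s0 - u s) := by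
      have : 0 ≤ u s0 - u s := by linarith
      gcongr
    have e2 : (u s0 - u s) * ((2 * Real.log μ + 6) / μ - u s) =
        (u s0 - u s) * (μ + 6 / μ - u s0 - u s) := by
      rw [hu]; ring
    rw [e2]
    unfold Ph
    nlinarith
  have := Real.exp_le_exp.2 k2
  have g2 := hG.h2
  gcongr

/-- Bound after the second cut, where `u > μ/2`. -/
lemma SolG.Q_B (h : SolG lam μ En u m e) (hG : Good μ) {s0 s : ℝ} (h0 : s0 ≤ s) (hs : s < 0)
    (hu : u s0 = μ - 2 * Real.log μ / μ) (h1 : u s ≤ μ - 26 * Real.log μ / μ)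
    (h2 : μ / 2 ≤ u s) : QQ lam u s ≤ 1824 / μ ^ 8 := by
  have g1 := hG.h1
  have g2 := hG.h2
  have g3 := hG.h3
  have hμ : 0 < μ := by linarith
  have k1 := h.Q_after hG h0 hs hu
  obtain ⟨L, hL⟩ : ∃ L, L = Real.log μ := ⟨_, rfl⟩
  rw [← hL] at k1 h1 hu g2 g3
  have e1 : (u s0 - u s) * ((2 * L + 6) / μ - u s) + 1 ≤ 1 + -((6:ℕ) * L) := by
    have a1 : 24 * L / μ ≤ u s0 - u s := by
      rw [hu]
      have : 24 * L / μ = 26 * L / μ - 2 * L / μ := by ring
      rw [this]; linarith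
    have a2 : (2 * L + 6) / μ ≤ 1 := by rw [div_le_one hμ]; linarith
    have a3 : μ / 4 ≤ u s - (2 * L + 6) / μ := by linarith
    have a4 : 0 < 24 * L / μ := by positivity
    have a5 : 24 * L / μ * (μ / 4) ≤ (u s0 - u s) * (u s - (2 * L + 6) / μ) := by
      apply mul_le_mul a1 a3 (by positivity) (by linarith)
    have a6 : 24 * L / μ * (μ / 4) = 6 * L := by field_simp; norm_num
    push_cast
    nlinarith
  calc QQ lam u s ≤ 608 * L / μ ^ 4 * Real.exp ((u s0 - u s) * ((2 * L + 6) / μ - u s) + 1) := k1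
    _ ≤ 608 * L / μ ^ 4 * Real.exp (1 + -((6:ℕ) * L)) := by
        have := Real.exp_le_exp.2 e1
        gcongr
    _ = 608 * L / μ ^ 4 * (Real.exp 1 * (μ ^ 6)⁻¹) := by rw [Real.exp_add, hL, exp_log_mul hμ]
    _ ≤ 608 * μ ^ 2 / μ ^ 4 * (3 * (μ ^ 6)⁻¹) := by
        have := exp_one_le
        have : L ≤ μ ^ 2 := by nlinarith
        gcongr
    _ = 1824 / μ ^ 8 := by field_simp; norm_num

/-- The constant of the outer region. -/
noncomputable def CA : ℝ := 77824 * Real.exp 7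

lemma CA_pos : 0 < CA := by unfold CA; positivity

/-- Bound of the density after the second cut. -/
lemma SolG.dens (h : SolG lam μ En u m e) (hG : Good μ) {s0 s : ℝ} (h0 : s0 ≤ s) (hs : s < 0)
    (hu : u s0 = μ - 2 * Real.log μ / μ) (h1 : u s ≤ μ - 26 * Real.log μ / μ) :
    u s * (DD (u s) * QQ lam u s) ≤
      CA * Real.log μ / μ ^ 4 * Real.exp (-(μ / 8 * u s)) + 1824 / μ ^ 6 := by
  have g1 := hG.h1
  have g2 := hG.h2
  have g3 := hG.h3
  have hμ : 0 < μ := by linarith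
  have hus := h.upos s hs
  have hQ := h.QQ_pos s
  have hD := DD_le hus.le
  have hCA := CA_pos
  have k0 : u s * (DD (u s) * QQ lam u s) ≤ u s ^ 2 * QQ lam u s := by
    have : u s ^ 2 * QQ lam u s = u s * (u s * QQ lam u s) := by ring
    rw [this]
    gcongr
  refine k0.trans ?_
  rcases le_or_gt (μ / 2) (u s) with h2 | h2
  · have k1 := h.Q_B hG h0 hs hu h1 h2
    have k2 : u s ≤ μ := h.u_le hs
    have k3 : u s ^ 2 * QQ lam u s ≤ μ ^ 2 * (1824 / μ ^ 8) := by gcongr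
    have k4 : μ ^ 2 * (1824 / μ ^ 8) = 1824 / μ ^ 6 := by field_simp
    have k5 : 0 ≤ CA * Real.log μ / μ ^ 4 * Real.exp (-(μ / 8 * u s)) := by positivity
    linarith
  · have k1 := h.Q_after hG h0 hs hu
    obtain ⟨L, hL⟩ : ∃ L, L = Real.log μ := ⟨_, rfl⟩
    rw [← hL] at k1 h1 hu g2 g3 ⊢
    have hδ : 2 * L / μ ≤ 1 / 500 := by rw [div_le_iff₀ hμ]; linarith
    have e1 : (u s0 - u s) * ((2 * L + 6) / μ - u s) + 1 ≤ 7 + 2 * L - μ / 4 * u s := by
      have a1 : u s0 - u s ≤ μ := by rw [hu]; have : 0 ≤ 2 * L / μ := by positivity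
                                     linarith
      have a2 : μ / 4 ≤ u s0 - u s := by rw [hu]; linarith
      have a3 : (u s0 - u s) * ((2 * L + 6) / μ) ≤ μ * ((2 * L + 6) / μ) := by gcongr
      have a4 : μ * ((2 * L + 6) / μ) = 2 * L + 6 := by field_simp
      have a5 : μ / 4 * u s ≤ (u s0 - u s) * u s := by gcongr
      nlinarith
    have e2 : Real.exp (7 + 2 * L - μ / 4 * u s) =
        Real.exp 7 * μ ^ 2 * (Real.exp (-(μ / 8 * u s)) * Real.exp (-(μ / 8 * u s))) := by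
      have a1 : Real.exp (2 * L) = μ ^ 2 := by
        rw [hL, two_mul, Real.exp_add, Real.exp_log hμ]; ring
      rw [← a1, ← Real.exp_add, ← Real.exp_add, ← Real.exp_add]
      congr 1
      ring
    have e3 : u s ^ 2 * Real.exp (-(μ / 8 * u s)) ≤ 128 / μ ^ 2 := by
      have a1 := Real.pow_div_factorial_le_exp (x := μ / 8 * u s) (by positivity) 2
      have a2 : Real.exp (μ / 8 * u s) * Real.exp (-(μ / 8 * u s)) = 1 := by
        rw [← Real.exp_add]; simp
      have a3 : u s ^ 2 = 128 / μ ^ 2 * ((μ / 8 * u s) ^ 2 / (Nat.factorial 2 : ℝ)) := by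
        have : (Nat.factorial 2 : ℝ) = 2 := by norm_num [Nat.factorial]
        rw [this]; field_simp; norm_num
      rw [a3]
      calc 128 / μ ^ 2 * ((μ / 8 * u s) ^ 2 / (Nat.factorial 2 : ℝ)) *
            Real.exp (-(μ / 8 * u s)) ≤ 128 / μ ^ 2 * Real.exp (μ / 8 * u s) *
            Real.exp (-(μ / 8 * u s)) := by gcongr
        _ = 128 / μ ^ 2 * (Real.exp (μ / 8 * u s) * Real.exp (-(μ / 8 * u s))) := by ring
        _ = _ := by rw [a2, mul_one]
    obtain ⟨EE, hEE⟩ : ∃ EE, EE = Real.exp (-(μ / 8 * u s)) := ⟨_, rfl⟩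
    have hEE0 : 0 < EE := by rw [hEE]; exact Real.exp_pos _
    rw [← hEE] at e2 e3 ⊢
    have k3 : u s ^ 2 * QQ lam u s ≤ CA * L / μ ^ 4 * EE := by
      calc u s ^ 2 * QQ lam u s ≤ u s ^ 2 * (608 * L / μ ^ 4 *
            Real.exp (7 + 2 * L - μ / 4 * u s)) := by
            have := Real.exp_le_exp.2 e1
            have : QQ lam u s ≤ 608 * L / μ ^ 4 * Real.exp (7 + 2 * L - μ / 4 * u s) :=
              k1.trans (by gcongr)
            gcongr
        _ = (u s ^ 2 * EE) * (608 * L / μ ^ 4 * (Real.exp 7 * μ ^ 2 * EE)) := by rw [e2]; ring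
        _ ≤ (128 / μ ^ 2) * (608 * L / μ ^ 4 * (Real.exp 7 * μ ^ 2 * EE)) := by gcongr
        _ = _ := by unfold CA; field_simp; ring
    have : 0 < 1824 / μ ^ 6 := by positivity
    linarith

end

end Pool.Agent.R217.MT
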