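import Pool.Agent.R217.MT.Ode2

set_option autoImplicit false

open Filter Topology Set

namespace Pool.Agent.R217.MT

section

variable {lam μ En : ℝ} {u m e : ℝ → ℝ}

/-- The energy is at least `u m + e`. -/
lemma SolG.En_ge (h : SolG lam μ En u m e) {s : ℝ} (hs : s < 0) : u s * m s + e s ≤ En := by
  have hlim : Tendsto (fun r => e r + m s * u r) (𝓝[<] 0) (𝓝 (En + m s * 0)) :=
    h.re.add (h.ru.const_mul _)
  rw [mul_zero, add_zero] at hlim
  refine ge_of_tendsto hlim ?_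
  filter_upwards [Ico_mem_nhdsLT hs] with r hr
  have hm := h.mpos s hs
  have := mono_icc (F := fun r => e r + m s * u r) (F' := fun r => m r ^ 2 + m s * -(m r)) hr.1
    (fun t _ ht2 => (h.de t (lt_of_le_of_lt ht2 hr.2)).add
      ((h.du t (lt_of_le_of_lt ht2 hr.2)).const_mul _))
    (fun t ht1 ht2 => by
      have := h.m_mono ht1 (lt_of_le_of_lt ht2 hr.2)
      nlinarith)
  linarith

/-- The energy beyond the second cut. -/
lemma SolG.En_le (h : SolG lam μ En u m e) (hG : Good μ) {s0 s1 : ℝ} (h01 : s0 ≤ s1) (hs1 : s1 < 0)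
    (hu0 : u s0 = μ - 2 * Real.log μ / μ) (hu1 : u s1 = μ - 26 * Real.log μ / μ) :
    En ≤ u s1 * m s1 + e s1 + (8 * CA + 1824) * Real.log μ / μ ^ 4 := by
  have g1 := hG.h1
  have g2 := hG.h2
  have hμ : 0 < μ := by linarith
  have hs0 : s0 < 0 := lt_of_le_of_lt h01 hs1
  obtain ⟨c1, c2, c3⟩ := h.cut0 hG hs0 hu0
  have hm0 := h.mpos s0 hs0
  have hCA := CA_pos
  have hm0t : 1 / m s0 ≤ μ := by
    have e1 : 1 / m s0 = (2 / m s0) / 2 := by ring
    have e2 : 6 / μ ≤ μ := by rw [div_le_iff₀ hμ]; nlinarith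
    rw [e1]; linarith
  obtain ⟨B1, hB1⟩ : ∃ B1, B1 = CA * Real.log μ / μ ^ 4 := ⟨_, rfl⟩
  obtain ⟨B2, hB2⟩ : ∃ B2, B2 = 1824 / μ ^ 6 := ⟨_, rfl⟩
  have hB10 : 0 < B1 := by rw [hB1]; positivity
  have hB20 : 0 < B2 := by rw [hB2]; positivity
  have hW : ∀ s, s1 ≤ s → s < 0 → u s * m s + e s ≤
      (u s1 * m s1 + e s1) + 1 / m s0 * (B1 * (8 / μ) + B2 * μ) := by
    intro s hs1s hs
    have h4 := mono_icc (F := fun r => -(u r * m r + e r) -
      1 / m s0 * (-(B1 * (8 / μ)) * Real.exp (-(μ / 8 * u r)) + B2 * u r))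
      (F' := fun r => -(u r * (DD (u r) * QQ lam u r)) -
        1 / m s0 * (-(B1 * (8 / μ)) * (Real.exp (-(μ / 8 * u r)) * -(μ / 8 * -(m r))) +
          B2 * -(m r))) hs1s
      (fun r _ hr2 => by
        have hr0 := lt_of_le_of_lt hr2 hs
        exact ((h.dW hr0).neg).sub ((((((h.du r hr0).const_mul (μ / 8)).neg).exp.const_mul _).add
          ((h.du r hr0).const_mul B2)).const_mul _))
      (fun r hr1 hr2 => by
        have hr0 := lt_of_le_of_lt hr2 hs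
        have j2 := h.dens hG (h01.trans hr1) hr0 hu0 (by
          have := h.u_anti hr1 hr0
          rw [hu1] at this
          exact this)
        rw [← hB1, ← hB2] at j2
        have j4 := h.m_mono (h01.trans hr1) hr0
        have j5 : 1 ≤ m r / m s0 := by rw [one_le_div hm0]; exact j4
        obtain ⟨EE, hEE⟩ : ∃ EE, EE = Real.exp (-(μ / 8 * u r)) := ⟨_, rfl⟩
        have hEE0 : 0 < EE := by rw [hEE]; exact Real.exp_pos _
        rw [← hEE] at j2 ⊢
        have j6 : 1 / m s0 * (-(B1 * (8 / μ)) * (EE * -(μ / 8 * -(m r))) + B2 * -(m r)) =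
            -((B1 * EE + B2) * (m r / m s0)) := by
          field_simp; ring
        rw [j6]
        have j7 : (B1 * EE + B2) * 1 ≤ (B1 * EE + B2) * (m r / m s0) := by gcongr
        linarith)
    have hus := h.upos s hs
    have hus1 := h.upos s1 hs1
    have j1 : Real.exp (-(μ / 8 * u s)) ≤ 1 := by
      rw [Real.exp_le_one_iff]
      have : 0 ≤ μ / 8 * u s := by positivity
      linarith
    have j2 : 1 / m s0 * (-(B1 * (8 / μ)) * Real.exp (-(μ / 8 * u s1)) + B2 * u s1) ≤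
        1 / m s0 * (B2 * μ) := by
      have : 0 ≤ B1 * (8 / μ) * Real.exp (-(μ / 8 * u s1)) := by positivity
      have := h.u_le hs1
      have : B2 * u s1 ≤ B2 * μ := by gcongr
      gcongr
      linarith
    have j3 : -(1 / m s0 * (B1 * (8 / μ))) ≤
        1 / m s0 * (-(B1 * (8 / μ)) * Real.exp (-(μ / 8 * u s)) + B2 * u s) := by
      have j4 : B1 * (8 / μ) * Real.exp (-(μ / 8 * u s)) ≤ B1 * (8 / μ) * 1 := by gcongr
      have j5 : 0 ≤ B2 * u s := by positivity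
      rw [← mul_neg]
      gcongr
      linarith
    linarith
  have hEn : En ≤ (u s1 * m s1 + e s1) + 1 / m s0 * (B1 * (8 / μ) + B2 * μ) := by
    refine le_of_tendsto h.re ?_
    filter_upwards [Ico_mem_nhdsLT hs1] with s hs
    have j1 := hW s hs.1 hs.2
    have j2 := h.upos s hs.2
    have j3 := h.mpos s hs.2
    have : 0 ≤ u s * m s := by positivity
    linarith
  refine hEn.trans ?_
  have k1 : 1 / m s0 * (B1 * (8 / μ) + B2 * μ) ≤ μ * (B1 * (8 / μ) + B2 * μ) := by gcongr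
  have k2 : μ * (B1 * (8 / μ) + B2 * μ) = (8 * CA * Real.log μ + 1824) / μ ^ 4 := by
    rw [hB1, hB2]; field_simp
  have k3 : (8 * CA * Real.log μ + 1824) / μ ^ 4 ≤ (8 * CA + 1824) * Real.log μ / μ ^ 4 := by
    gcongr; nlinarith
  linarith

/-- The tangent line bound. -/
lemma tangent (hG : Good μ) {x : ℝ} (hx : μ - 26 * Real.log μ / μ ≤ x) (hxμ : x ≤ μ) :
    |1 - 1 / DD μ * DD x + 1 / DD μ ^ 2 * ((x - μ) * DD x)| ≤
      44512 * Real.log μ ^ 2 / μ ^ 5 * DD x := by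
  have g1 := hG.h1
  have g2 := hG.h2
  have g3 := hG.h3
  have hμ : 0 < μ := by linarith
  obtain ⟨L, hL⟩ : ∃ L, L = Real.log μ := ⟨_, rfl⟩
  rw [← hL] at g2 g3 hx ⊢
  have hδ : 26 * L / μ ≤ 26 / 1000 := by rw [div_le_iff₀ hμ]; linarith
  have hx2 : μ / 2 ≤ x := by linarith
  have hx0 : 0 < x := by linarith
  have hX := DD_pos hμ
  have hXge := DD_ge hμ.le
  have hx' := DD_pos hx0
  have hxge := DD_ge hx0.le
  have k := ep_diff hμ hx2 hxμ
  obtain ⟨z, hz⟩ : ∃ z, z = -(ep μ - ep x) / 2 := ⟨_, rfl⟩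
  have hzb : |z| ≤ 12 / μ ^ 3 * (26 * L / μ) := by
    rw [hz, abs_div, abs_neg, abs_two, div_le_iff₀ (by norm_num)]
    refine k.trans ?_
    have : 24 / μ ^ 3 * (μ - x) ≤ 24 / μ ^ 3 * (26 * L / μ) := by
      have : μ - x ≤ 26 * L / μ := by linarith
      gcongr
    refine this.trans (le_of_eq ?_)
    ring
  have hdiff : DD μ - DD x = (μ - x) + z := by rw [DD_eq, DD_eq, hz]; ring
  have hz1 : |z| ≤ 26 * L / μ := by
    refine hzb.trans ?_
    have : 12 / μ ^ 3 ≤ 1 := by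
      rw [div_le_one (by positivity)]
      nlinarith [pow_le_pow_left₀ (by norm_num) g1 3]
    have : 12 / μ ^ 3 * (26 * L / μ) ≤ 1 * (26 * L / μ) := by gcongr
    linarith
  have hd1 : DD μ - DD x ≤ 2 * (26 * L / μ) := by
    rw [hdiff]
    have := (abs_le.1 hz1).2
    linarith
  have hd0 : 0 ≤ DD μ - DD x := by linarith [DD_mono hxμ]
  have key : 1 - 1 / DD μ * DD x + 1 / DD μ ^ 2 * ((x - μ) * DD x) =
      ((DD μ - DD x) ^ 2 / DD x + z) / DD μ ^ 2 * DD x := by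
    have : z = (DD μ - DD x) - (μ - x) := by linarith
    rw [this]
    field_simp
    ring
  rw [key, abs_mul, abs_of_pos hx']
  have hb : |((DD μ - DD x) ^ 2 / DD x + z) / DD μ ^ 2| ≤ 44512 * L ^ 2 / μ ^ 5 := by
    rw [abs_div, abs_of_pos (by positivity : (0:ℝ) < DD μ ^ 2)]
    have n1 : |(DD μ - DD x) ^ 2 / DD x + z| ≤
        (2 * (26 * L / μ)) ^ 2 / (μ / 4) + 12 / μ ^ 3 * (26 * L / μ) := by
      refine (abs_add_le _ _).trans ?_
      apply add_le_add _ hzb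
      rw [abs_of_nonneg (by positivity)]
      have : μ / 4 ≤ DD x := by linarith
      gcongr
    calc |(DD μ - DD x) ^ 2 / DD x + z| / DD μ ^ 2 ≤
          ((2 * (26 * L / μ)) ^ 2 / (μ / 4) + 12 / μ ^ 3 * (26 * L / μ)) / (μ / 2) ^ 2 := by gcongr
      _ = (43264 * L ^ 2 + 1248 * L / μ) / μ ^ 5 := by field_simp; ring
      _ ≤ 44512 * L ^ 2 / μ ^ 5 := by
          gcongr
          have : L / μ ≤ L ^ 2 := by
            rw [div_le_iff₀ hμ]; nlinarith
          have e : 1248 * L / μ = 1248 * (L / μ) := by ring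
          rw [e]; linarith
  gcongr

/-- The value of `u m + e` at the second cut. -/
lemma SolG.W_inner (h : SolG lam μ En u m e) (hG : Good μ) {s1 : ℝ} (hs1 : s1 < 0)
    (hu1 : u s1 = μ - 26 * Real.log μ / μ) :
    |(u s1 * m s1 + e s1) - (μ * m s1 + DD μ * m s1 - DD μ ^ 2 * m s1 ^ 2 / 2 -
      DD μ ^ 2 * QQ lam u s1 / 2)| ≤ 356096 * Real.log μ ^ 2 / μ ^ 4 := by
  have g1 := hG.h1
  have g2 := hG.h2
  have g3 := hG.h3
  have hμ : 0 < μ := by linarith
  have hX := DD_pos hμ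
  have hXle := DD_le hμ.le
  obtain ⟨C1, hC1⟩ : ∃ C1, C1 = 44512 * Real.log μ ^ 2 / μ ^ 5 := ⟨_, rfl⟩
  have hder : ∀ r < 0, HasDerivAt (fun r => (m r ^ 2 / 2 + QQ lam u r / 2) - 1 / DD μ * m r +
      1 / DD μ ^ 2 * ((u r * m r + e r) - μ * m r)) (QQ lam u r * (1 - 1 / DD μ * DD (u r) +
        1 / DD μ ^ 2 * ((u r - μ) * DD (u r)))) r := by
    intro r hr
    refine (((h.dJ hr).sub ((h.dm r hr).const_mul _)).add
      (((h.dW hr).sub ((h.dm r hr).const_mul μ)).const_mul _)).congr_deriv ?_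
    ring
  have hlim : Tendsto (fun r => (m r ^ 2 / 2 + QQ lam u r / 2) - 1 / DD μ * m r +
      1 / DD μ ^ 2 * ((u r * m r + e r) - μ * m r)) atBot (𝓝 0) := by
    have := (h.J_lim.sub (h.lm.const_mul (1 / DD μ))).add
      ((h.W_lim.sub (h.lm.const_mul μ)).const_mul (1 / DD μ ^ 2))
    simpa using this
  have hb : ∀ r ≤ s1, |1 - 1 / DD μ * DD (u r) + 1 / DD μ ^ 2 * ((u r - μ) * DD (u r))| ≤
      C1 * DD (u r) := by
    intro r hr
    rw [hC1]
    apply tangent hG _ (h.u_le (lt_of_le_of_lt hr hs1))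
    rw [← hu1]
    exact h.u_anti hr hs1
  have up := mono_lim (F := fun r => C1 * m r - ((m r ^ 2 / 2 + QQ lam u r / 2) - 1 / DD μ * m r +
      1 / DD μ ^ 2 * ((u r * m r + e r) - μ * m r))) (F' := fun r => C1 * (DD (u r) * QQ lam u r) -
      (QQ lam u r * (1 - 1 / DD μ * DD (u r) +
        1 / DD μ ^ 2 * ((u r - μ) * DD (u r))))) (s1 := s1) (L := C1 * 0 - 0)
    (fun r hr => ((h.dm r (lt_of_le_of_lt hr hs1)).const_mul C1).sub
      (hder r (lt_of_le_of_lt hr hs1)))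
    (fun r hr => by
      have h1 := (abs_le.1 (hb r hr)).2
      have hQ := h.QQ_pos r
      have : C1 * (DD (u r) * QQ lam u r) - QQ lam u r * (1 - 1 / DD μ * DD (u r) +
        1 / DD μ ^ 2 * ((u r - μ) * DD (u r))) = QQ lam u r * (C1 * DD (u r) -
        (1 - 1 / DD μ * DD (u r) + 1 / DD μ ^ 2 * ((u r - μ) * DD (u r)))) := by ring
      rw [this]
      apply mul_nonneg hQ.le; linarith) ((h.lm.const_mul _).sub hlim)
  have dn := mono_lim (F := fun r => C1 * m r + ((m r ^ 2 / 2 + QQ lam u r / 2) - 1 / DD μ * m r +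
      1 / DD μ ^ 2 * ((u r * m r + e r) - μ * m r))) (F' := fun r => C1 * (DD (u r) * QQ lam u r) +
      (QQ lam u r * (1 - 1 / DD μ * DD (u r) +
        1 / DD μ ^ 2 * ((u r - μ) * DD (u r))))) (s1 := s1) (L := C1 * 0 + 0)
    (fun r hr => ((h.dm r (lt_of_le_of_lt hr hs1)).const_mul C1).add
      (hder r (lt_of_le_of_lt hr hs1)))
    (fun r hr => by
      have h1 := (abs_le.1 (hb r hr)).1
      have hQ := h.QQ_pos r
      have : C1 * (DD (u r) * QQ lam u r) + QQ lam u r * (1 - 1 / DD μ * DD (u r) +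
        1 / DD μ ^ 2 * ((u r - μ) * DD (u r))) = QQ lam u r * (C1 * DD (u r) +
        (1 - 1 / DD μ * DD (u r) + 1 / DD μ ^ 2 * ((u r - μ) * DD (u r)))) := by ring
      rw [this]
      apply mul_nonneg hQ.le; linarith) ((h.lm.const_mul _).add hlim)
  -- size of `m s1`
  have hm1 := h.mpos s1 hs1
  have hm1b : m s1 ≤ 8 / μ := by
    refine (h.m_le hs1).trans ?_
    have hδ : 26 * Real.log μ / μ ≤ 26 / 1000 := by rw [div_le_iff₀ hμ]; linarith
    have hu2 : μ / 2 ≤ u s1 := by rw [hu1]; linarith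
    have := DD_ge (h.upos s1 hs1).le
    have hD1 : μ / 4 ≤ DD (u s1) := by linarith
    calc 2 / DD (u s1) ≤ 2 / (μ / 4) := by gcongr
      _ = 8 / μ := by field_simp; norm_num
  have hfin : DD μ ^ 2 * (C1 * m s1) ≤ 356096 * Real.log μ ^ 2 / μ ^ 4 := by
    calc DD μ ^ 2 * (C1 * m s1) ≤ μ ^ 2 * (C1 * (8 / μ)) := by
          have : 0 < C1 := by rw [hC1]; positivity
          gcongr
      _ = _ := by rw [hC1]; field_simp; ring
  have e1 : (u s1 * m s1 + e s1) - (μ * m s1 + DD μ * m s1 - DD μ ^ 2 * m s1 ^ 2 / 2 -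
      DD μ ^ 2 * QQ lam u s1 / 2) = DD μ ^ 2 * ((m s1 ^ 2 / 2 + QQ lam u s1 / 2) -
      1 / DD μ * m s1 + 1 / DD μ ^ 2 * ((u s1 * m s1 + e s1) - μ * m s1)) := by
    field_simp
    ring
  rw [e1]
  simp only [mul_zero, sub_zero, add_zero] at up dn
  refine le_trans ?_ hfin
  rw [abs_mul, abs_of_pos (by positivity : (0:ℝ) < DD μ ^ 2)]
  have : |(m s1 ^ 2 / 2 + QQ lam u s1 / 2) -
      1 / DD μ * m s1 + 1 / DD μ ^ 2 * ((u s1 * m s1 + e s1) - μ * m s1)| ≤ C1 * m s1 := by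
    rw [abs_le]; constructor <;> linarith
  gcongr

/-- The energy expansion. -/
theorem SolG.En_exp (h : SolG lam μ En u m e) (hG : Good μ) :
    |En - 2 - 2 * (μ / DD μ - 1)| ≤ (8 * CA + 500000) * Real.log μ ^ 2 / μ ^ 4 := by
  have g1 := hG.h1
  have g2 := hG.h2
  have g3 := hG.h3
  have hμ : 0 < μ := by linarith
  have hX := DD_pos hμ
  have hXle := DD_le hμ.le
  have hXge := DD_ge hμ.le
  have hCA := CA_pos
  have hδ : 26 * Real.log μ / μ ≤ 26 / 1000 := by rw [div_le_iff₀ hμ]; linarith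
  have hδ2 : 2 * Real.log μ / μ < 26 * Real.log μ / μ := by gcongr; norm_num
  obtain ⟨s0, hs0, hu0⟩ := h.exists_val (x := μ - 2 * Real.log μ / μ) (by linarith)
    (by have : 0 < 2 * Real.log μ / μ := by positivity
        linarith)
  obtain ⟨s1, hs1, hu1⟩ := h.exists_val (x := μ - 26 * Real.log μ / μ) (by linarith)
    (by have : 0 < 26 * Real.log μ / μ := by positivity
        linarith)
  have h01 : s0 ≤ s1 := by
    by_contra hc
    push Not at hc
    have := h.u_anti hc.le hs0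
    rw [hu0, hu1] at this
    linarith
  obtain ⟨c1, c2, c3⟩ := h.cut0 hG hs0 hu0
  have hup := h.En_le hG h01 hs1 hu0 hu1
  have hlo := h.En_ge hs1
  have hin := h.W_inner hG hs1 hu1
  have hm1 := h.mpos s1 hs1
  have hm1b := h.m_le hs1
  have hQ1 := h.Q_B hG h01 hs1 hu0 (le_of_eq hu1) (by rw [hu1]; linarith)
  have hQ1p := h.QQ_pos s1
  have hm01 := h.m_mono h01 hs1
  have hu2 : μ / 2 ≤ u s1 := by rw [hu1]; linarith
  have hD1 := DD_ge (h.upos s1 hs1).le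
  have hDdiff : DD μ - DD (u s1) ≤ 2 * (26 * Real.log μ / μ) := by
    have k := ep_diff hμ hu2 (h.u_le hs1)
    rw [DD_eq, DD_eq]
    have k2 := (abs_le.1 k).1
    have e1 : μ - u s1 = 26 * Real.log μ / μ := by rw [hu1]; ring
    have e2 : 24 / μ ^ 3 ≤ 1 := by
      rw [div_le_one (by positivity)]
      nlinarith [pow_le_pow_left₀ (by norm_num) g1 3]
    have e4 : 0 ≤ μ - u s1 := by linarith [h.u_le hs1]
    have e3 : 24 / μ ^ 3 * (μ - u s1) ≤ 1 * (μ - u s1) := by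
      gcongr
    linarith
  obtain ⟨L, hL⟩ : ∃ L, L = Real.log μ := ⟨_, rfl⟩
  rw [← hL] at g2 g3 hδ hδ2 hup hin hDdiff hu1 hu0 ⊢
  obtain ⟨Y, hY⟩ : ∃ Y, Y = L ^ 2 / μ ^ 4 := ⟨_, rfl⟩
  have hY0 : 1 / μ ^ 4 ≤ Y := by rw [hY]; gcongr; nlinarith
  have hY1 : L / μ ^ 4 ≤ Y := by rw [hY]; gcongr; nlinarith
  have hYp : 0 < Y := by rw [hY]; positivity
  -- the variable x
  obtain ⟨x, hx⟩ : ∃ x, x = DD μ * m s1 := ⟨_, rfl⟩
  obtain ⟨κ, hκ⟩ : ∃ κ, κ = μ / DD μ := ⟨_, rfl⟩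
  have hxlo : 2 - 6 / μ ^ 2 ≤ x := by
    have : DD μ * (2 / DD μ * (1 - 3 / μ ^ 2)) = 2 - 6 / μ ^ 2 := by field_simp; ring
    rw [← this, hx]
    have := c1.trans hm01
    gcongr
  have hxup : x ≤ 2 + 416 * L / μ ^ 2 := by
    have e1 : x ≤ DD μ * (2 / DD (u s1)) := by rw [hx]; gcongr
    have hDp : 0 < DD (u s1) := DD_pos (h.upos s1 hs1)
    have e2 : DD μ * (2 / DD (u s1)) = 2 + 2 * ((DD μ - DD (u s1)) / DD (u s1)) := by
      field_simp; ring
    have e3 : (DD μ - DD (u s1)) / DD (u s1) ≤ 2 * (26 * L / μ) / (μ / 4) := by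
      have hDge : μ / 4 ≤ DD (u s1) := by linarith
      gcongr
    have e4 : 2 * (2 * (26 * L / μ) / (μ / 4)) = 416 * L / μ ^ 2 := by field_simp; norm_num
    linarith
  have hep : 0 ≤ ep μ ∧ ep μ ≤ 1 / μ ^ 2 := by
    unfold ep
    have hw := ww_pos μ
    have hw2 := ww_ge' hμ.le
    refine ⟨by positivity, ?_⟩
    calc μ / ww μ ^ 3 ≤ μ / μ ^ 3 := by gcongr
      _ = 1 / μ ^ 2 := by field_simp
  have hκ1 : κ - 1 = ep μ / 2 / DD μ := by
    have : μ = DD μ + ep μ / 2 := by rw [DD_eq]; ring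
    rw [hκ]
    field_simp
    linarith
  have hκ0 : 0 ≤ κ - 1 := by rw [hκ1]; have := hep.1; positivity
  have hκ2 : κ - 1 ≤ 1 / μ ^ 3 := by
    rw [hκ1]
    calc ep μ / 2 / DD μ ≤ (1 / μ ^ 2) / 2 / (μ / 2) := by
          have := hep.2
          gcongr
      _ = 1 / μ ^ 3 := by field_simp
  -- the square
  have hsq : (x - 1 - κ) ^ 2 / 2 ≤ 87000 * Y := by
    have a1 : |x - 1 - κ| ≤ 417 * L / μ ^ 2 := by
      have b1 : 1 / μ ^ 3 ≤ 1 / μ ^ 2 := by gcongr; linarith; norm_num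
      have b2 : 1 / μ ^ 2 ≤ L / μ ^ 2 := by gcongr
      have b3 : 417 * L / μ ^ 2 = 417 * (L / μ ^ 2) := by ring
      have b4 : 416 * L / μ ^ 2 = 416 * (L / μ ^ 2) := by ring
      have b5 : 6 / μ ^ 2 = 6 * (1 / μ ^ 2) := by ring
      rw [abs_le, b3]
      rw [b4] at hxup
      rw [b5] at hxlo
      constructor
      · have : 0 < L / μ ^ 2 := by positivity
        linarith
      · linarith
    have a2 : (x - 1 - κ) ^ 2 ≤ (417 * L / μ ^ 2) ^ 2 := by
      rw [← sq_abs]; gcongr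
    have a3 : (417 * L / μ ^ 2) ^ 2 = 173889 * Y := by rw [hY]; field_simp; ring
    rw [a3] at a2
    linarith
  have hκsq : (κ - 1) ^ 2 / 2 ≤ Y := by
    have a1 : (κ - 1) ^ 2 ≤ (1 / μ ^ 3) ^ 2 := by gcongr
    have a2 : (1 / μ ^ 3) ^ 2 ≤ 1 / μ ^ 4 := by
      rw [div_pow, one_pow, ← pow_mul]
      gcongr
      · linarith
      · norm_num
    linarith
  have hQt : DD μ ^ 2 * QQ lam u s1 / 2 ≤ 912 * Y := by
    have a1 : DD μ ^ 2 * QQ lam u s1 / 2 ≤ μ ^ 2 * (1824 / μ ^ 8) / 2 := by gcongr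
    have a2 : μ ^ 2 * (1824 / μ ^ 8) / 2 = 912 * (1 / μ ^ 6) := by field_simp; norm_num
    have a3 : 1 / μ ^ 6 ≤ 1 / μ ^ 4 := by gcongr; linarith; norm_num
    linarith
  have hQt0 : 0 ≤ DD μ ^ 2 * QQ lam u s1 / 2 := by positivity
  have hmain : μ * m s1 + DD μ * m s1 - DD μ ^ 2 * m s1 ^ 2 / 2 =
      2 + 2 * (κ - 1) + (κ - 1) ^ 2 / 2 - (x - 1 - κ) ^ 2 / 2 := by
    have e1 : μ * m s1 = κ * x := by rw [hκ, hx]; field_simp
    have e2 : DD μ ^ 2 * m s1 ^ 2 = x ^ 2 := by rw [hx]; ring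
    rw [e1, e2, ← hx]; ring
  have hin' : 356096 * L ^ 2 / μ ^ 4 = 356096 * Y := by rw [hY]; ring
  have hup' : (8 * CA + 1824) * L / μ ^ 4 ≤ (8 * CA + 1824) * Y := by
    rw [mul_div_assoc]; gcongr
  rw [hmain, hin'] at hin
  rw [← hκ]
  have e5 : (8 * CA + 500000) * L ^ 2 / μ ^ 4 = 8 * CA * Y + 500000 * Y := by rw [hY]; ring
  have e6 : (8 * CA + 1824) * Y = 8 * CA * Y + 1824 * Y := by ring
  rw [e5]
  rw [e6] at hup'
  obtain ⟨i1, i2⟩ := abs_le.1 hin
  have hcY : 0 < 8 * CA * Y := by positivity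
  have hs1' := sq_nonneg (x - 1 - κ)
  have hs2' := sq_nonneg (κ - 1)
  rw [abs_le]
  constructor <;> linarith

end

end Pool.Agent.R217.MT
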