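import Pool.Agent.R217.MT.Ode3

set_option autoImplicit false

open Filter Topology Set

namespace Pool.Agent.R217.MT

lemma ww_ratio : Tendsto (fun μ : ℝ => ww μ / μ) atTop (𝓝 1) := by
  have h1 : Tendsto (fun μ : ℝ => 1 + 1 / μ ^ 2) atTop (𝓝 (1 + 0)) := by
    apply Tendsto.const_add
    have := (tendsto_pow_atTop (α := ℝ) two_ne_zero).inv_tendsto_atTop
    refine this.congr fun μ => ?_
    simp
  rw [add_zero] at h1
  refine tendsto_of_tendsto_of_tendsto_of_le_of_le' tendsto_const_nhds h1 ?_ ?_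
  · filter_upwards [eventually_gt_atTop 0] with μ hμ
    rw [one_le_div hμ]
    exact ww_ge' hμ.le
  · filter_upwards [eventually_gt_atTop 0] with μ hμ
    rw [div_le_iff₀ hμ]
    have e : (1 + 1 / μ ^ 2) * μ = μ + 1 / μ := by field_simp
    rw [e]
    have h2 := ww_sq μ
    have h3 : (μ + 1 / μ) ^ 2 = μ ^ 2 + 2 + (1 / μ) ^ 2 := by field_simp; ring
    have h4 : 0 < μ + 1 / μ := by positivity
    have h5 := ww_pos μ
    nlinarith [sq_nonneg (1 / μ)]

lemma kappa_lim : Tendsto (fun μ : ℝ => μ ^ 3 * (2 * (μ / DD μ - 1))) atTop (𝓝 1) := by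
  have h1 := ww_ratio.pow 3
  have h2 : Tendsto (fun μ : ℝ => 1 / μ ^ 3) atTop (𝓝 0) := by
    have := (tendsto_pow_atTop (α := ℝ) three_ne_zero).inv_tendsto_atTop
    refine this.congr fun μ => ?_
    simp
  have h3 : Tendsto (fun μ : ℝ => 2 / (2 * (ww μ / μ) ^ 3 - 1 / μ ^ 3)) atTop
      (𝓝 (2 / (2 * 1 ^ 3 - 0))) :=
    tendsto_const_nhds.div ((h1.const_mul 2).sub h2) (by norm_num)
  have e : (2:ℝ) / (2 * 1 ^ 3 - 0) = 1 := by norm_num
  rw [e] at h3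
  refine h3.congr' ?_
  filter_upwards [eventually_gt_atTop 0] with μ hμ
  have hw := ww_ge μ
  have hw3 : (1:ℝ) ≤ ww μ ^ 3 := one_le_pow₀ hw
  have hd : (0:ℝ) < 2 * ww μ ^ 3 - 1 := by linarith
  have e1 : DD μ = μ * (2 * ww μ ^ 3 - 1) / (2 * ww μ ^ 3) := by
    unfold DD
    have : (0:ℝ) < ww μ := by linarith
    field_simp
  have hw0 : (0:ℝ) < ww μ := by linarith
  have e2 : 2 * (ww μ / μ) ^ 3 - 1 / μ ^ 3 = (2 * ww μ ^ 3 - 1) / μ ^ 3 := by field_simp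
  rw [e1, e2]
  field_simp
  ring

lemma log_sq_div : Tendsto (fun μ : ℝ => Real.log μ ^ 2 / μ) atTop (𝓝 0) := by
  have h := (isLittleO_log_rpow_atTop (r := 1 / 2) (by norm_num)).tendsto_div_nhds_zero
  have h2 := h.pow 2
  simp only [ne_eq, OfNat.ofNat_ne_zero, not_false_eq_true, zero_pow] at h2
  refine h2.congr' ?_
  filter_upwards [eventually_gt_atTop 0] with μ hμ
  have e : (μ ^ (1 / 2 : ℝ)) ^ 2 = μ := by
    rw [← Real.rpow_natCast, ← Real.rpow_mul hμ.le]; norm_num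
  rw [div_pow, e]

/-- The expansion of the energy. -/
theorem exp_eventually {ε : ℝ} (hε : 0 < ε) :
    ∀ᶠ μ : ℝ in atTop, ∀ (lam En : ℝ) (u m e : ℝ → ℝ), SolG lam μ En u m e →
      |μ ^ 3 * (En - 2) - 1| ≤ ε := by
  have h1 : ∀ᶠ μ : ℝ in atTop, |μ ^ 3 * (2 * (μ / DD μ - 1)) - 1| < ε / 2 := by
    have := (Metric.tendsto_nhds.1 kappa_lim) (ε / 2) (by positivity)
    simpa [Real.dist_eq] using this
  have hc : Tendsto (fun μ : ℝ => (8 * CA + 500000) * (Real.log μ ^ 2 / μ)) atTop (𝓝 0) := by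
    simpa using log_sq_div.const_mul (8 * CA + 500000)
  have h2 : ∀ᶠ μ : ℝ in atTop, (8 * CA + 500000) * (Real.log μ ^ 2 / μ) < ε / 2 :=
    hc.eventually (gt_mem_nhds (by positivity))
  filter_upwards [good_eventually, h1, h2] with μ hG h1 h2 lam En u m e h
  have hμ : 0 < μ := h.μpos
  have h3 := h.En_exp hG
  have e1 : μ ^ 3 * (En - 2) - 1 = μ ^ 3 * (En - 2 - 2 * (μ / DD μ - 1)) +
      (μ ^ 3 * (2 * (μ / DD μ - 1)) - 1) := by ring
  rw [e1]
  refine (abs_add_le _ _).trans ?_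
  have h4 : |μ ^ 3 * (En - 2 - 2 * (μ / DD μ - 1))| ≤
      (8 * CA + 500000) * (Real.log μ ^ 2 / μ) := by
    rw [abs_mul, abs_of_pos (by positivity : 0 < μ ^ 3)]
    calc μ ^ 3 * |En - 2 - 2 * (μ / DD μ - 1)| ≤
          μ ^ 3 * ((8 * CA + 500000) * Real.log μ ^ 2 / μ ^ 4) := by gcongr
      _ = _ := by field_simp
  linarith

end Pool.Agent.R217.MT
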