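import Pool.Agent.R217.MT.Defs
import Pool.Agent.R217.MT.Ode4
import Pool.Agent.R217.NL.Red6

set_option autoImplicit false

open Filter Topology Set MeasureTheory
open scoped ENNReal InnerProductSpace

namespace Pool.Agent.R217.MT

open Pool.Agent.R217.NL (E BB IsTest W0 energy UU UU_cont norm_e0 norm_smul_e0 mem_e0 e0 sph
  sph_pos polar exists_test Prof Dat mB LnB L1_of_Ln Ut grad_cont grad_bound qm qm_meas exp_mem
  exp_tend)

/-- The nonlinearity. -/
noncomputable def fG (t : ℝ) : ℝ := DD t * Real.exp (2 * Ph t)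

lemma gG_deriv (t : ℝ) : HasDerivAt gG (Real.exp (th t) * -(t / ww t ^ 3)) t :=
  ((th_deriv t).exp).sub_const 1

lemma rhsG_eq (t : ℝ) : rhsG gG t = fG t := by
  have hw := ww_pos t
  unfold rhsG hh fG
  rw [(gG_deriv t).deriv]
  have e : Real.exp (2 * Ph t) = Real.exp (t ^ 2) * Real.exp (th t) := by
    rw [← Real.exp_add]; unfold Ph; congr 1; ring
  have e2 : gG t = Real.exp (th t) - 1 := rfl
  rw [e, e2]
  by_cases ht : t = 0
  · subst ht
    unfold DD
    simp
  · unfold DD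
    field_simp
    ring

lemma DD_cont : Continuous DD := continuous_iff_continuousAt.2 fun t => (DD_deriv t).continuousAt

lemma Ph_cont : Continuous Ph := continuous_iff_continuousAt.2 fun t => (Ph_deriv t).continuousAt

lemma fG_cont : Continuous fG := DD_cont.mul (Real.continuous_exp.comp (continuous_const.mul Ph_cont))

lemma fG_pos {t : ℝ} (ht : 0 < t) : 0 < fG t := mul_pos (DD_pos ht) (Real.exp_pos _)

/-- Radial weak solutions. -/
structure SolF (lam : ℝ) (u : E 0 → ℝ) (G : E 0 → E 0) : Prop where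
  lam_pos : 0 < lam
  meas : AEStronglyMeasurable G (volume.restrict (BB 0))
  cont : ContinuousOn u (BB 0)
  mem : W0 0 u G
  pos : ∀ x ∈ BB 0, 0 < u x
  radial : ∀ x ∈ BB 0, ∀ y ∈ BB 0, ‖x‖ = ‖y‖ → u x = u y
  weak : ∀ φ, IsTest 0 φ → ∫ x in BB 0, ⟪G x, gradient φ x⟫_ℝ =
    lam * ∫ x in BB 0, fG (u x) * φ x

lemma SolE.toF {lam : ℝ} {u : E 0 → ℝ} {G : E 0 → E 0} (h : SolE gG lam u G) : SolF lam u G := by
  refine ⟨h.lam_pos, h.meas, h.cont, h.mem, h.pos, h.radial, ?_⟩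
  intro φ hφ
  have := h.weak φ hφ
  simp_rw [rhsG_eq] at this
  exact this

variable {u : E 0 → ℝ} {G : E 0 → E 0} {w : ℝ → ℝ} {lam : ℝ}

lemma UU_eq (h : SolF lam u G) {x : E 0} (hx : x ∈ BB 0) : u x = UU 0 u ‖x‖ := by
  have h1 : ‖x‖ < 1 := by rwa [BB, mem_ball_zero_iff] at hx
  have h2 := norm_nonneg x
  apply h.radial x hx _ (mem_e0 ⟨by linarith, h1⟩)
  rw [norm_smul_e0, abs_of_nonneg h2]

lemma UU_pos (h : SolF lam u G) {r : ℝ} (hr : r ∈ Ioo (-1:ℝ) 1) : 0 < UU 0 u r :=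
  h.pos _ (mem_e0 hr)

/-- The data from a solution. -/
lemma exists_dat (h : SolF lam u G) : ∃ G' : E 0 → E 0, G =ᵐ[mB 0] G' ∧
    (∃ φ, Dat 0 u G' φ) ∧ MemLp G' (0 + 2 : ℕ) (mB 0) := by
  obtain ⟨φ, hT, h1, h2⟩ := h.mem
  have hG := h.meas
  have hval : ∀ x ∈ BB 0, u x = Ut 0 u ‖x‖ := by
    intro x hx
    rw [UU_eq h hx, Ut, indicator_of_mem]
    rw [BB, mem_ball_zero_iff] at hx
    exact ⟨by linarith [norm_nonneg x], hx⟩
  have hum : AEStronglyMeasurable u (mB 0) :=
    h.cont.aestronglyMeasurable (show MeasurableSet (BB 0) from measurableSet_ball)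
  refine ⟨hG.mk G, hG.ae_eq_mk, ⟨φ, h.cont, hval, hG.stronglyMeasurable_mk, hT, ?_, ?_⟩, ?_⟩
  · have h3 := L1_of_Ln (fun j => ((hT j).1.continuous.aestronglyMeasurable).sub hum) h1
    refine h3.congr fun j => ?_
    apply setLIntegral_congr_fun (show MeasurableSet (BB 0) from measurableSet_ball)
    intro x hx
    simp only [Pi.sub_apply]
    rw [← hval x hx]
  · have h3 := L1_of_Ln (fun j => ((grad_cont (hT j)).aestronglyMeasurable).sub hG) h2
    refine h3.congr fun j => ?_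
    apply lintegral_congr_ae
    filter_upwards [hG.ae_eq_mk] with x hx
    simp only [Pi.sub_apply]
    rw [hx]
  · have hlt := (h2.eventually (gt_mem_nhds one_pos)).exists
    obtain ⟨j, hj⟩ := hlt
    have m1 : MemLp (fun x => gradient (φ j) x - G x) (0 + 2 : ℕ) (mB 0) :=
      ⟨((grad_cont (hT j)).aestronglyMeasurable).sub hG, lt_trans hj ENNReal.one_lt_top⟩
    obtain ⟨C, hC⟩ := grad_bound (hT j)
    have m2 : MemLp (gradient (φ j)) (0 + 2 : ℕ) (mB 0) :=
      MemLp.of_bound (grad_cont (hT j)).aestronglyMeasurable C (ae_of_all _ hC)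
    have m3 : MemLp G (0 + 2 : ℕ) (mB 0) := by
      refine (m2.sub m1).ae_eq (ae_of_all _ fun x => ?_)
      simp
    exact m3.ae_eq hG.ae_eq_mk

theorem exists_prof (h : SolF lam u G) : ∃ w, Prof 0 u G w := by
  obtain ⟨G', hGG, ⟨φ, hD⟩, hLn⟩ := exists_dat h
  refine ⟨qm 0 G', qm_meas hD.meas, ?_, fun r hr => hD.w_ii hr, ?_, ?_⟩
  · filter_upwards [hD.G_eq, hGG] with x hx hx2
    rw [hx2, hx]
  · intro x hx hx0
    have hn : 0 < ‖x‖ := norm_pos_iff.2 hx0
    have hx1 : ‖x‖ < 1 := by rwa [BB, mem_ball_zero_iff] at hx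
    rw [UU_eq h hx, hD.U_eq ⟨hn, hx1⟩]
  · have h1 : IntegrableOn (fun x : E 0 => |qm 0 G' ‖x‖| ^ (0 + 2)) (Metric.ball 0 1) volume := by
      have h2 := hLn.integrable_norm_pow (by omega)
      refine Integrable.congr h2 ?_
      have h0 : ∀ᵐ x : E 0 ∂(mB 0), x ≠ 0 := by
        apply ae_restrict_of_ae
        exact compl_mem_ae_iff.2 (measure_singleton 0)
      filter_upwards [hD.G_eq, h0] with x hx hx0
      have hn : 0 < ‖x‖ := norm_pos_iff.2 hx0
      rw [hx, norm_smul, Real.norm_eq_abs, abs_div, abs_of_pos hn]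
      congr 1
      field_simp
    rw [integrableOn_fun_norm_addHaar volume (f := fun r : ℝ => |qm 0 G' r| ^ (0 + 2)),
      finrank_euclideanSpace_fin] at h1
    exact h1

lemma UU_val (hP : Prof 0 u G w) {r : ℝ} (hr : r ∈ Ioo (0:ℝ) 1) :
    UU 0 u r = -∫ t in r..1, w t := NL.UU_val hP hr

/-- The radial density. -/
noncomputable def kk (u : E 0 → ℝ) (r : ℝ) : ℝ := r * fG (UU 0 u r)

/-- Its primitive. -/
noncomputable def FF (u : E 0 → ℝ) (r : ℝ) : ℝ := ∫ t in (0:ℝ)..r, kk u t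

lemma kk_cont (hu : ContinuousOn u (BB 0)) : ContinuousOn (kk u) (Ioo (-1) 1) :=
  continuousOn_id.mul (fG_cont.comp_continuousOn (UU_cont hu))

lemma kk_pos (h : SolF lam u G) {r : ℝ} (hr : r ∈ Ioo (0:ℝ) 1) : 0 < kk u r :=
  mul_pos hr.1 (fG_pos (UU_pos h ⟨by linarith [hr.1], hr.2⟩))

lemma kk_int (hu : ContinuousOn u (BB 0)) {r : ℝ} (hr : r ∈ Ioo (-1:ℝ) 1) :
    IntervalIntegrable (kk u) volume 0 r := by
  apply ContinuousOn.intervalIntegrable
  apply (kk_cont hu).mono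
  intro t ht
  rcases le_total 0 r with h0 | h0
  · rw [uIcc_of_le h0] at ht
    exact ⟨by linarith [ht.1], by linarith [ht.2, hr.2]⟩
  · rw [uIcc_of_ge h0] at ht
    exact ⟨by linarith [ht.1, hr.1], by linarith [ht.2]⟩

lemma FF_deriv (hu : ContinuousOn u (BB 0)) {r : ℝ} (hr : r ∈ Ioo (-1:ℝ) 1) :
    HasDerivAt (FF u) (kk u r) r :=
  intervalIntegral.integral_hasDerivAt_right (kk_int hu hr)
    ((kk_cont hu).stronglyMeasurableAtFilter isOpen_Ioo r hr)
    ((kk_cont hu).continuousAt (isOpen_Ioo.mem_nhds hr))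

lemma FF_cont (hu : ContinuousOn u (BB 0)) : ContinuousOn (FF u) (Ioo (-1) 1) :=
  fun _ hr => (FF_deriv hu hr).continuousAt.continuousWithinAt

lemma FF_zero : FF u 0 = 0 := by unfold FF; simp

lemma FF_pos (h : SolF lam u G) {r : ℝ} (hr : r ∈ Ioo (0:ℝ) 1) : 0 < FF u r := by
  apply intervalIntegral.intervalIntegral_pos_of_pos_on (kk_int h.cont ⟨by linarith [hr.1], hr.2⟩)
    _ hr.1
  intro t ht
  exact kk_pos h ⟨ht.1, lt_trans ht.2 hr.2⟩

/-- Integration by parts. -/
lemma ibp (hu : ContinuousOn u (BB 0)) {ψ Θ : ℝ → ℝ} (hψ : Continuous ψ)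
    (hΘ : ∀ r, HasDerivAt Θ (ψ r) r) {b : ℝ} (hb : b ∈ Ioo (0:ℝ) 1)
    (hz : ∀ r, b ≤ r → Θ r = 0 ∧ ψ r = 0) :
    ∫ r in Ioo (0:ℝ) 1, kk u r * Θ r = -∫ r in Ioo (0:ℝ) 1, FF u r * ψ r := by
  have hΘc : Continuous Θ := continuous_iff_continuousAt.2 fun r => (hΘ r).continuousAt
  have hsub : ∀ t ∈ uIcc 0 b, t ∈ Ioo (-1:ℝ) 1 := by
    intro t ht
    rw [uIcc_of_le hb.1.le] at ht
    exact ⟨by linarith [ht.1], by linarith [ht.2, hb.2]⟩
  have e1 : ∀ f : ℝ → ℝ, (∀ r, b ≤ r → f r = 0) →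
      ∫ r in Ioo (0:ℝ) 1, f r = ∫ r in (0:ℝ)..b, f r := by
    intro f hf
    rw [intervalIntegral.integral_of_le hb.1.le]
    apply setIntegral_eq_of_subset_of_forall_sdiff_eq_zero measurableSet_Ioo
    · intro t ht
      exact ⟨ht.1, lt_of_le_of_lt ht.2 hb.2⟩
    · intro t ht
      apply hf
      by_contra hc
      push Not at hc
      exact ht.2 ⟨ht.1.1, hc.le⟩
  rw [e1 _ (fun r hr => by rw [(hz r hr).1, mul_zero]),
    e1 _ (fun r hr => by rw [(hz r hr).2, mul_zero])]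
  have i1 : IntervalIntegrable (fun r => kk u r * Θ r) volume 0 b := by
    apply ContinuousOn.intervalIntegrable
    exact ((kk_cont hu).mono hsub).mul hΘc.continuousOn
  have i2 : IntervalIntegrable (fun r => FF u r * ψ r) volume 0 b := by
    apply ContinuousOn.intervalIntegrable
    exact ((FF_cont hu).mono hsub).mul hψ.continuousOn
  have h2 := intervalIntegral.integral_eq_sub_of_hasDerivAt
    (fun t ht => (FF_deriv hu (hsub t ht)).mul (hΘ t)) (i1.add i2)
  rw [intervalIntegral.integral_add i1 i2] at h2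
  simp only [Pi.mul_apply] at h2
  rw [FF_zero, (hz b le_rfl).1] at h2
  linarith

lemma grad_pair (hP : Prof 0 u G w) {ψ : ℝ → ℝ} :
    ∫ x in BB 0, ⟪G x, (ψ ‖x‖ / ‖x‖) • x⟫_ℝ = ∫ x in BB 0, w ‖x‖ * ψ ‖x‖ := by
  apply integral_congr_ae
  have h0 : ∀ᵐ x : E 0 ∂(volume.restrict (BB 0)), x ≠ 0 := by
    apply ae_restrict_of_ae
    exact compl_mem_ae_iff.2 (measure_singleton 0)
  filter_upwards [hP.grad, h0] with x hx hx0
  have hn : 0 < ‖x‖ := norm_pos_iff.2 hx0
  rw [hx, inner_smul_left, inner_smul_right, real_inner_self_eq_norm_sq]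
  have e2 : w ‖x‖ / ‖x‖ * (ψ ‖x‖ / ‖x‖ * ‖x‖ ^ 2) = w ‖x‖ * ψ ‖x‖ := by field_simp
  rw [starRingEnd_apply, star_trivial, e2]

/-- The weak radial identity. -/
lemma weak_radial (h : SolF lam u G) (hP : Prof 0 u G w) {ψ : ℝ → ℝ}
    (hψ : ContDiff ℝ (⊤ : ℕ∞) ψ) (hc : HasCompactSupport ψ) (hs : tsupport ψ ⊆ Ioo 0 1) :
    ∫ r in Ioo (0:ℝ) 1, r * (w r * ψ r) = -(lam * ∫ r in Ioo (0:ℝ) 1, FF u r * ψ r) := by
  obtain ⟨Θ, hΘ, hT, hg, b, hb, hz⟩ := exists_test (d := 0) hψ hc hs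
  have h1 := h.weak _ hT
  simp_rw [hg] at h1
  rw [grad_pair hP] at h1
  have h2 : ∫ x in BB 0, fG (u x) * Θ ‖x‖ = ∫ x in BB 0, fG (UU 0 u ‖x‖) * Θ ‖x‖ := by
    apply setIntegral_congr_fun (show MeasurableSet (BB 0) from measurableSet_ball)
    intro x hx
    simp only [UU_eq h hx]
  rw [h2, polar (fun r => w r * ψ r), polar (fun r => fG (UU 0 u r) * Θ r)] at h1
  simp only [zero_add, pow_one] at h1
  have h3 : ∫ r in Ioo (0:ℝ) 1, r * (fG (UU 0 u r) * Θ r) =
      -∫ r in Ioo (0:ℝ) 1, FF u r * ψ r := by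
    rw [← ibp h.cont hψ.continuous hΘ hb hz]
    congr 1
    ext r
    unfold kk
    ring
  rw [h3] at h1
  have hsp := sph_pos (d := 0)
  have h4 : sph 0 * (∫ r in Ioo (0:ℝ) 1, r * (w r * ψ r)) =
      sph 0 * (-(lam * ∫ r in Ioo (0:ℝ) 1, FF u r * ψ r)) := by
    rw [h1]; ring
  exact mul_left_cancel₀ hsp.ne' h4

lemma w_int (hP : Prof 0 u G w) : IntegrableOn (fun r => r * w r) (Ioo 0 1) := by
  have := NL.w_int hP
  simpa using this

/-- The radial equation in integrated form. -/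
lemma ae_ident (h : SolF lam u G) (hP : Prof 0 u G w) :
    ∀ᵐ r : ℝ, r ∈ Ioo (0:ℝ) 1 → r * w r + lam * FF u r = 0 := by
  have hF : ContinuousOn (FF u) (Ioo 0 1) := (FF_cont h.cont).mono (fun r hr =>
    ⟨by linarith [hr.1], hr.2⟩)
  apply isOpen_Ioo.ae_eq_zero_of_integral_contDiff_smul_eq_zero
  · apply LocallyIntegrableOn.add (w_int hP).locallyIntegrableOn
    exact (continuousOn_const.mul hF).locallyIntegrableOn measurableSet_Ioo
  · intro ψ hψ hc hs
    have hz : ∀ r, r ∉ Ioo (0:ℝ) 1 → ψ r = 0 := fun r hr => image_eq_zero_of_notMem_tsupport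
      (fun h => hr (hs h))
    have h1 := weak_radial h hP hψ hc hs
    rw [← setIntegral_eq_integral_of_forall_compl_eq_zero (s := Ioo (0:ℝ) 1)
      (fun r hr => by rw [hz r hr, zero_smul])]
    obtain ⟨C, hC⟩ := hc.exists_bound_of_continuous hψ.continuous
    have i1 : IntegrableOn (fun r => r * (w r * ψ r)) (Ioo 0 1) := by
      have := (w_int hP).mul_bdd (c := C) hψ.continuous.aestronglyMeasurable
        (ae_of_all _ hC)
      refine this.congr (ae_of_all _ fun r => ?_)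
      simp only []
      ring
    have i2 : IntegrableOn (fun r => lam * (FF u r * ψ r)) (Ioo 0 1) := by
      apply Integrable.const_mul
      have h5 : Integrable (fun r => FF u r * ψ r) := by
        have hc2 : Continuous (fun r => FF u r * ψ r) := by
          rw [continuous_iff_continuousAt]
          intro r
          by_cases hr : r ∈ tsupport ψ
          · exact ((FF_deriv h.cont ⟨by linarith [(hs hr).1], (hs hr).2⟩).continuousAt).mul
              hψ.continuous.continuousAt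
          · have : (fun r => FF u r * ψ r) =ᶠ[𝓝 r] fun _ => 0 := by
              filter_upwards [(isClosed_tsupport ψ).isOpen_compl.mem_nhds hr] with t ht
              rw [image_eq_zero_of_notMem_tsupport ht, mul_zero]
            exact (continuousAt_const).congr this.symm
        exact hc2.integrable_of_hasCompactSupport hc.mul_left
      exact h5.integrableOn
    have e : ∀ r, ψ r • (r * w r + lam * FF u r) =
        r * (w r * ψ r) + lam * (FF u r * ψ r) := by
      intro r; simp only [smul_eq_mul]; ring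
    simp_rw [e]
    rw [integral_add i1 i2, h1, integral_const_mul]
    ring

/-- The flux. -/
noncomputable def MM (lam : ℝ) (u : E 0 → ℝ) (r : ℝ) : ℝ := lam * FF u r

lemma MM_pos (h : SolF lam u G) {r : ℝ} (hr : r ∈ Ioo (0:ℝ) 1) : 0 < MM lam u r :=
  mul_pos h.lam_pos (FF_pos h hr)

lemma MM_cont (h : SolF lam u G) : ContinuousOn (MM lam u) (Ioo (-1) 1) :=
  continuousOn_const.mul (FF_cont h.cont)

/-- `w = -M/r`. -/
lemma w_eq (h : SolF lam u G) (hP : Prof 0 u G w) :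
    ∀ᵐ r : ℝ, r ∈ Ioo (0:ℝ) 1 → w r = -(MM lam u r / r) := by
  filter_upwards [ae_ident h hP] with r hr hr1
  have h1 := hr hr1
  have hr0 := hr1.1
  unfold MM
  field_simp
  linarith

lemma MM_int (h : SolF lam u G) (hP : Prof 0 u G w) {r : ℝ} (hr : r ∈ Ioo (0:ℝ) 1) :
    IntervalIntegrable (fun t => MM lam u t / t) volume r 1 := by
  refine (hP.int r hr).neg.congr_ae ?_
  rw [uIoc_of_le hr.2.le]
  have h1 : ∀ᵐ t : ℝ, t ≠ 1 := compl_mem_ae_iff.2 (measure_singleton 1)
  rw [EventuallyEq, ae_restrict_iff' measurableSet_Ioc]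
  filter_upwards [w_eq h hP, h1] with t ht ht1 ht2
  have : w t = -(MM lam u t / t) := ht ⟨lt_trans hr.1 ht2.1, lt_of_le_of_ne ht2.2 ht1⟩
  simp only [Pi.neg_apply]
  rw [this]; ring

lemma UU_val2 (h : SolF lam u G) (hP : Prof 0 u G w) {r : ℝ} (hr : r ∈ Ioo (0:ℝ) 1) :
    UU 0 u r = ∫ t in r..1, MM lam u t / t := by
  rw [UU_val hP hr, ← intervalIntegral.integral_neg]
  apply intervalIntegral.integral_congr_ae
  have h1 : ∀ᵐ t : ℝ, t ≠ 1 := compl_mem_ae_iff.2 (measure_singleton 1)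
  filter_upwards [w_eq h hP, h1] with t ht ht1 ht2
  rw [uIoc_of_le hr.2.le] at ht2
  rw [ht ⟨lt_trans hr.1 ht2.1, lt_of_le_of_ne ht2.2 ht1⟩]
  ring

lemma UU_deriv (h : SolF lam u G) (hP : Prof 0 u G w) {r : ℝ} (hr : r ∈ Ioo (0:ℝ) 1) :
    HasDerivAt (UU 0 u) (-(MM lam u r / r)) r := by
  have hc : ContinuousOn (fun t => MM lam u t / t) (Ioo 0 1) := by
    apply ((MM_cont h).mono (fun r hr => ⟨by linarith [hr.1], hr.2⟩)).div continuousOn_id
    intro x hx
    exact hx.1.ne'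
  have h1 := intervalIntegral.integral_hasDerivAt_left (MM_int h hP hr)
    (hc.stronglyMeasurableAtFilter isOpen_Ioo r hr) (hc.continuousAt (isOpen_Ioo.mem_nhds hr))
  refine h1.congr_of_eventuallyEq ?_
  filter_upwards [isOpen_Ioo.mem_nhds hr] with t ht
  exact UU_val2 h hP ht

/-- The energy density. -/
noncomputable def ee (lam : ℝ) (u : E 0 → ℝ) (t : ℝ) : ℝ := MM lam u t ^ 2 / t

lemma ee_cont (h : SolF lam u G) : ContinuousOn (ee lam u) (Ioo 0 1) := by
  unfold ee
  apply (((MM_cont h).mono (fun r hr => ⟨by linarith [hr.1], hr.2⟩)).pow _).div continuousOn_id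
  intro x hx
  exact hx.1.ne'

lemma ee_ae (h : SolF lam u G) (hP : Prof 0 u G w) :
    ∀ᵐ r : ℝ, r ∈ Ioo (0:ℝ) 1 → r * |w r| ^ 2 = ee lam u r := by
  filter_upwards [w_eq h hP] with r hr hr1
  have hM := MM_pos h hr1
  have hr0 := hr1.1
  rw [hr hr1, abs_neg, abs_of_pos (by positivity)]
  unfold ee
  rw [div_pow]
  field_simp

lemma ee_int (h : SolF lam u G) (hP : Prof 0 u G w) :
    IntervalIntegrable (ee lam u) volume 0 1 := by
  rw [intervalIntegrable_iff_integrableOn_Ioo_of_le zero_le_one]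
  have h1 := hP.en
  simp only [zero_add, pow_one] at h1
  refine h1.congr ?_
  rw [EventuallyEq, ae_restrict_iff' measurableSet_Ioo]
  exact ee_ae h hP

lemma energy_eq (h : SolF lam u G) (hP : Prof 0 u G w) :
    energy 0 G = sph 0 * ∫ t in (0:ℝ)..1, ee lam u t := by
  have h1 : energy 0 G = ∫ x in BB 0, |w ‖x‖| ^ 2 := by
    unfold energy
    apply integral_congr_ae
    have h0 : ∀ᵐ x : E 0 ∂(volume.restrict (BB 0)), x ≠ 0 := by
      apply ae_restrict_of_ae
      exact compl_mem_ae_iff.2 (measure_singleton 0)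
    filter_upwards [hP.grad, h0] with x hx hx0
    have hn : 0 < ‖x‖ := norm_pos_iff.2 hx0
    rw [hx, norm_smul, Real.norm_eq_abs, abs_div, abs_of_pos hn]
    congr 1
    field_simp
  rw [h1, polar (fun r => |w r| ^ 2), intervalIntegral.integral_of_le zero_le_one,
    ← integral_Ioc_eq_integral_Ioo]
  simp only [zero_add, pow_one]
  congr 1
  apply integral_congr_ae
  have h2 : ∀ᵐ t : ℝ, t ≠ 1 := compl_mem_ae_iff.2 (measure_singleton 1)
  rw [EventuallyEq, ae_restrict_iff' measurableSet_Ioc]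
  filter_upwards [ee_ae h hP, h2] with t ht ht1 ht2
  exact ht ⟨ht2.1, lt_of_le_of_ne ht2.2 ht1⟩

/-- The radial solution in logarithmic variable. -/
theorem to_Sol (h : SolF lam u G) (hP : Prof 0 u G w) :
    SolG lam (u 0) (∫ t in (0:ℝ)..1, ee lam u t) (fun s => UU 0 u (Real.exp s))
      (fun s => MM lam u (Real.exp s)) (fun s => ∫ t in (0:ℝ)..Real.exp s, ee lam u t) := by
  have hI1 : ∀ r ∈ Ioo (0:ℝ) 1, r ∈ Ioo (-1:ℝ) 1 := fun r hr => ⟨by linarith [hr.1], hr.2⟩
  refine ⟨h.lam_pos, fun s hs => UU_pos h (hI1 _ (exp_mem hs)), fun s hs => MM_pos h (exp_mem hs),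
    ?_, ?_, ?_, ?_, ?_, ?_, ?_, ?_⟩
  · intro s hs
    have h1 := (UU_deriv h hP (exp_mem hs)).comp s (Real.hasDerivAt_exp s)
    refine h1.congr_deriv ?_
    have := Real.exp_pos s
    field_simp
  · intro s hs
    have h1 := ((FF_deriv h.cont (hI1 _ (exp_mem hs))).comp s (Real.hasDerivAt_exp s)).const_mul lam
    refine h1.congr_deriv ?_
    unfold QQ kk fG
    have e2 : Real.exp (2 * s) = Real.exp s * Real.exp s := by
      rw [← Real.exp_add]; congr 1; ring
    rw [e2]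
    ring
  · intro s hs
    have h1 : HasDerivAt (fun r => ∫ t in (0:ℝ)..r, ee lam u t) (ee lam u (Real.exp s))
        (Real.exp s) := by
      apply intervalIntegral.integral_hasDerivAt_right
      · apply (ee_int h hP).mono_set
        rw [uIcc_of_le (Real.exp_pos s).le, uIcc_of_le zero_le_one]
        exact Icc_subset_Icc_right (exp_mem hs).2.le
      · exact (ee_cont h).stronglyMeasurableAtFilter isOpen_Ioo _ (exp_mem hs)
      · exact (ee_cont h).continuousAt (isOpen_Ioo.mem_nhds (exp_mem hs))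
    have h2 := h1.comp s (Real.hasDerivAt_exp s)
    refine h2.congr_deriv ?_
    unfold ee
    have := Real.exp_pos s
    field_simp
  · have h1 : Tendsto (UU 0 u) (𝓝 0) (𝓝 (UU 0 u 0)) :=
      ((UU_cont h.cont).continuousAt (isOpen_Ioo.mem_nhds ⟨by norm_num, by norm_num⟩))
    have h2 : UU 0 u 0 = u 0 := by unfold UU; simp
    rw [h2] at h1
    exact h1.comp Real.tendsto_exp_atBot
  · have h1 : Tendsto (MM lam u) (𝓝 0) (𝓝 (MM lam u 0)) :=
      ((MM_cont h).continuousAt (isOpen_Ioo.mem_nhds ⟨by norm_num, by norm_num⟩))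
    have h2 : MM lam u 0 = 0 := by
      unfold MM
      rw [FF_zero, mul_zero]
    rw [h2] at h1
    exact h1.comp Real.tendsto_exp_atBot
  · have h1 := intervalIntegral.continuousOn_primitive_interval' (ee_int h hP)
      (left_mem_uIcc (a := (0:ℝ)) (b := 1))
    have h2 : Tendsto (fun r => ∫ t in (0:ℝ)..r, ee lam u t) (𝓝[uIcc 0 1] 0) (𝓝 0) := by
      have := h1 0 left_mem_uIcc
      unfold ContinuousWithinAt at this
      simpa using this
    refine h2.comp ?_
    rw [tendsto_nhdsWithin_iff]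
    refine ⟨Real.tendsto_exp_atBot, ?_⟩
    filter_upwards [eventually_le_atBot 0] with s hs
    rw [uIcc_of_le zero_le_one]
    exact ⟨(Real.exp_pos s).le, Real.exp_le_one_iff.2 hs⟩
  · have hhalf : (1/2:ℝ) ∈ Ioo (0:ℝ) 1 := ⟨by norm_num, by norm_num⟩
    have h1 := intervalIntegral.continuousOn_primitive_interval' (MM_int h hP hhalf)
      (right_mem_uIcc (a := (1/2:ℝ)) (b := 1))
    have h2 : Tendsto (fun r => ∫ t in (1:ℝ)..r, MM lam u t / t) (𝓝[uIcc (1/2) 1] 1) (𝓝 0) := by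
      have := h1 1 right_mem_uIcc
      unfold ContinuousWithinAt at this
      simpa using this
    rw [uIcc_of_le (by norm_num)] at h2
    have h3 := (h2.comp exp_tend).neg
    rw [neg_zero] at h3
    refine h3.congr' ?_
    filter_upwards [self_mem_nhdsWithin] with s hs
    simp only [Function.comp_apply]
    rw [UU_val2 h hP (exp_mem hs), intervalIntegral.integral_symm]
    ring
  · have h1 := intervalIntegral.continuousOn_primitive_interval' (ee_int h hP)
      (left_mem_uIcc (a := (0:ℝ)) (b := 1))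
    have h2 : Tendsto (fun r => ∫ t in (0:ℝ)..r, ee lam u t) (𝓝[uIcc 0 1] 1)
        (𝓝 (∫ t in (0:ℝ)..1, ee lam u t)) := h1 1 right_mem_uIcc
    refine h2.comp (exp_tend.mono_right (nhdsWithin_mono _ ?_))
    rw [uIcc_of_le zero_le_one]
    exact Icc_subset_Icc_left (by norm_num)

lemma sph_zero : sph 0 = 2 * Real.pi := by
  rw [NL.sph_eq]
  have h : volume.real (Metric.ball (0 : E 0) 1) = Real.pi := by
    rw [Measure.real, EuclideanSpace.volume_ball_fin_two]
    simp
    exact Real.pi_pos.le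
  rw [h]
  simp

/-- The expansion for every blow-up sequence. -/
theorem expansion : Expansion gG (2 * Real.pi) 3 := by
  intro lam u G hB
  have h1 : Tendsto (fun k => 2 * Real.pi * ((u k 0) ^ 3 *
      ((∫ t in (0:ℝ)..1, ee (lam k) (u k) t) - 2))) atTop (𝓝 (2 * Real.pi * 1)) := by
    apply Tendsto.const_mul
    rw [Metric.tendsto_atTop']
    intro ε hε
    obtain ⟨N, hN⟩ := eventually_atTop.1 (hB.lim.eventually (exp_eventually (ε := ε / 2)
      (by positivity)))
    refine ⟨N, fun k hk => ?_⟩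
    obtain ⟨w, hw⟩ := exists_prof (hB.sol k).toF
    have h2 := hN k hk.le _ _ _ _ _ (to_Sol (hB.sol k).toF hw)
    rw [Real.dist_eq]
    linarith
  rw [mul_one] at h1
  refine h1.congr fun k => ?_
  obtain ⟨w, hw⟩ := exists_prof (hB.sol k).toF
  rw [energy_eq (hB.sol k).toF hw, sph_zero]
  have : (u k 0) ^ (3:ℝ) = (u k 0) ^ 3 := by
    rw [← Real.rpow_natCast]; norm_num
  rw [this]
  ring

end Pool.Agent.R217.MT
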